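import Pool.Agent.H839.PV.Single
import Pool.Graph.R_pool_sql_team_seeded_3997aac3.Q54.KZ.Una

/-!
# First moments and volumes
-/

set_option autoImplicit false

namespace Pool.Agent.H839.PV

open MeasureTheory Set MvPolynomial

theorem clear {n : ℕ} (P : MvPolynomial (Fin n) ℚ) : ∃ (d : ℕ) (P' : MvPolynomial (Fin n) ℤ), 0 < d ∧
    ∀ x : Fin n → ℝ, (aeval x P' : ℝ) = d * aeval x P := by
  induction P using MvPolynomial.induction_on with
  | C q =>
    refine ⟨q.den, C q.num, q.den_pos, fun x => ?_⟩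
    have h1 : ((q.num : ℤ) : ℝ) = (q.den : ℝ) * (q : ℝ) := by
      have h2 : (q.den : ℝ) ≠ 0 := by exact_mod_cast q.den_nz
      rw [Rat.cast_def]
      field_simp
    simpa using h1
  | add P Q h1 h2 =>
    obtain ⟨d, P', h3, h4⟩ := h1
    obtain ⟨e, Q', h5, h6⟩ := h2
    refine ⟨d * e, (e : MvPolynomial (Fin n) ℤ) * P' + (d : MvPolynomial (Fin n) ℤ) * Q', Nat.mul_pos h3 h5, fun x => ?_⟩
    simp only [map_add, map_mul, map_natCast, h4, h6, Nat.cast_mul]
    ring
  | mul_X P i h1 =>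
    obtain ⟨d, P', h3, h4⟩ := h1
    refine ⟨d, P' * X i, h3, fun x => ?_⟩
    simp only [map_mul, aeval_X, h4]
    ring

theorem clear_pos {n : ℕ} (P : MvPolynomial (Fin n) ℚ) : ∃ P' : MvPolynomial (Fin n) ℤ,
    ∀ x : Fin n → ℝ, 0 < (aeval x P' : ℝ) ↔ 0 < (aeval x P : ℝ) := by
  obtain ⟨d, P', h1, h2⟩ := clear P
  refine ⟨P', fun x => ?_⟩
  have h3 : (0 : ℝ) < d := by exact_mod_cast h1
  rw [h2, mul_pos_iff_of_pos_left h3]

/-- the first moment of the region of a system is the first moment of the region of one polynomial -/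
theorem moment_single {n : ℕ} (i : Fin n) (L : List (MvPolynomial (Fin n) ℤ))
    (hi : IntegrableOn (fun x : Fin n → ℝ => x i) {x | ∀ A ∈ L, 0 < (aeval x A : ℝ)}) :
    ∃ (k : ℕ) (F : MvPolynomial (Fin (n + k)) ℤ),
      IntegrableOn (fun x : Fin (n + k) → ℝ => x (i.castAdd k)) {x | 0 < (aeval x F : ℝ)} ∧
      ∫ x in {x | 0 < (aeval x F : ℝ)}, x (i.castAdd k) = ∫ x in {x | ∀ A ∈ L, 0 < (aeval x A : ℝ)}, x i := by
  obtain ⟨k, -, F, -, h2⟩ := exists_map n L
  have hm : AEStronglyMeasurable (fun x : Fin n → ℝ => x i)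
      ((volume.restrict {y | 0 < (aeval y F : ℝ)}).map (base k)) := (measurable_pi_apply i).aestronglyMeasurable
  refine ⟨k, F, ?_, ?_⟩
  · rw [IntegrableOn, ← h2, integrable_map_measure hm meas_base.aemeasurable] at hi
    exact hi
  · rw [← h2, integral_map meas_base.aemeasurable hm]
    rfl

/-- the first moment over the region of one polynomial is the difference of the volumes of the regions of two
polynomials in the same number of variables -/
theorem moment_vol {n : ℕ} (i : Fin n) (f : MvPolynomial (Fin n) ℤ)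
    (hi : IntegrableOn (fun x : Fin n → ℝ => x i) {x | 0 < (aeval x f : ℝ)}) :
    ∃ (N : ℕ) (F G : MvPolynomial (Fin N) ℤ),
      volume {x | 0 < (aeval x F : ℝ)} ≠ ⊤ ∧ volume {x | 0 < (aeval x G : ℝ)} ≠ ⊤ ∧
      (volume {x | 0 < (aeval x F : ℝ)}).toReal - (volume {x | 0 < (aeval x G : ℝ)}).toReal =
        ∫ x in {x | 0 < (aeval x f : ℝ)}, x i := by
  have hS : MeasurableSet {x : Fin n → ℝ | 0 < (aeval x f : ℝ)} := measurableSet_lt measurable_const (meas_aeval f)
  have a1 : Measurable (fun p : (Fin n → ℝ) × (Fin 1 → ℝ) => p.2 0) := by fun_prop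
  have a2 : Measurable (fun p : (Fin n → ℝ) × (Fin 1 → ℝ) => p.1 i) := by fun_prop
  have h1 := subgraph (fun x => x i) _ hS (fun c => Ioo 0 c)
    ((measurableSet_lt measurable_const a1).inter (measurableSet_lt a1 a2))
    (fun c => c) (fun c => by rw [Real.volume_Ioo, sub_zero])
  have h2 := subgraph (fun x => x i) _ hS (fun c => Ioo c 0)
    ((measurableSet_lt a2 a1).inter (measurableSet_lt a1 measurable_const))
    (fun c => -c) (fun c => by rw [Real.volume_Ioo, zero_sub])
  let f' : MvPolynomial (Fin (n + 1)) ℤ := rename (Fin.castAdd 1) f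
  have hf' : ∀ y : Fin (n + 1) → ℝ, (aeval y f' : ℝ) = aeval (base 1 y) f := by
    intro y
    simp only [f', aeval_rename]
    rfl
  obtain ⟨k, hk, F, -, h3⟩ := exists_single (n + 1)
    [f', X (Fin.natAdd n 0), X (Fin.castAdd 1 i) - X (Fin.natAdd n 0)]
  obtain ⟨k', hk', G, -, h4⟩ := exists_single (n + 1)
    [f', -X (Fin.natAdd n 0), X (Fin.natAdd n 0) - X (Fin.castAdd 1 i)]
  simp only [List.length_cons, List.length_nil] at hk hk'
  subst hk
  subst hk'
  have h5 := h3 univ MeasurableSet.univ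
  have h6 := h4 univ MeasurableSet.univ
  simp only [mem_univ, true_and, List.forall_mem_cons, List.not_mem_nil, false_imp_iff, implies_true, and_true,
    hf', aeval_X, map_sub, map_neg, sub_pos, neg_pos] at h5 h6
  have h7 : volume {x | 0 < (aeval x F : ℝ)} = ∫⁻ x in {x : Fin n → ℝ | 0 < (aeval x f : ℝ)}, ENNReal.ofReal (x i) := by
    rw [← h1]
    exact h5
  have h8 : volume {x | 0 < (aeval x G : ℝ)} = ∫⁻ x in {x : Fin n → ℝ | 0 < (aeval x f : ℝ)}, ENNReal.ofReal (-x i) := by
    rw [← h2, h6]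
    congr 1
    ext y
    simp only [mem_ofPred_eq, mem_Ioo]
    constructor
    · rintro ⟨a, b, c⟩
      exact ⟨a, c, b⟩
    · rintro ⟨a, b, c⟩
      exact ⟨a, c, b⟩
  have h9 := hi.lintegral_lt_top
  have h10 := hi.neg.lintegral_lt_top
  refine ⟨_, F, G, ?_, ?_, ?_⟩
  · rw [h7]
    exact h9.ne
  · rw [h8]
    exact h10.ne
  · rw [h7, h8, integral_eq_lintegral_pos_part_sub_lintegral_neg_part hi]

end Pool.Agent.H839.PV
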