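import Pool.Graph.R_pool_sql_team_seeded_ab47071d.TH960.PE.Comp

/-!
# Arithmetic of polynomials given by lists of monomials
-/

set_option autoImplicit false

namespace Pool.Agent.H839.PV

open TH960.PE

/-- the sum of the exponents -/
def addE (e e' : List ℕ) : List ℕ := (List.range (max e.length e'.length)).map (fun i => e.getD i 0 + e'.getD i 0)

/-- the product -/
def pmul (P Q : Poly) : Poly := P.flatMap (fun a => Q.map (fun b => (cmul a.1 b.1, addE a.2 b.2)))

/-- the negative -/
def pneg (P : Poly) : Poly := P.map (fun m => ((m.1.2.1, m.1.1, m.1.2.2), m.2))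

/-- a natural number as a polynomial -/
def cst (a : ℕ) : Poly := [((a, 0, 0), [])]

/-- a variable -/
def var (i : ℕ) : Poly := [((1, 0, 0), List.replicate i 0 ++ [1])]

/-- the square -/
def sq (P : Poly) : Poly := pmul P P

/-- the difference -/
def psub (P Q : Poly) : Poly := P ++ pneg Q

theorem mev_range (k : ℕ) : ∀ (h : ℕ → ℕ) (X : ℕ → ℝ),
    mev X ((List.range k).map h) = ∏ i ∈ Finset.range k, X i ^ h i := by
  induction k with
  | zero => intro h X; simp [mev]
  | succ k ih =>
    intro h X
    rw [List.range_succ_eq_map, List.map_cons, List.map_map, mev, ih, Finset.prod_range_succ', mul_comm]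
    rfl

theorem mev_getD (e : List ℕ) : ∀ (k : ℕ) (X : ℕ → ℝ), e.length ≤ k →
    mev X e = ∏ i ∈ Finset.range k, X i ^ e.getD i 0 := by
  induction e with
  | nil => intro k X _; simp [mev]
  | cons a e ih =>
    intro k X hk
    rcases k with _ | k
    · simp at hk
    · rw [mev, ih k _ (by simpa using hk), Finset.prod_range_succ', mul_comm]
      simp

theorem mev_addE (e e' : List ℕ) (X : ℕ → ℝ) : mev X (addE e e') = mev X e * mev X e' := by
  rw [addE, mev_range, mev_getD e _ X (le_max_left _ _), mev_getD e' _ X (le_max_right _ _), ← Finset.prod_mul_distrib]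
  exact Finset.prod_congr rfl fun i _ => pow_add _ _ _

theorem pev_nil (X : ℕ → ℝ) : pev X [] = 0 := by simp [pev]

theorem pev_map_mul (a : Mono) (Q : Poly) (X : ℕ → ℝ) :
    pev X (Q.map (fun b => (cmul a.1 b.1, addE a.2 b.2))) = cv a.1 * mev X a.2 * pev X Q := by
  induction Q with
  | nil => simp [pev_nil]
  | cons b Q ih =>
    rw [List.map_cons, pev_cons, ih, pev_cons, mev_addE, cv_cmul]
    ring

theorem pev_pmul (P Q : Poly) (X : ℕ → ℝ) : pev X (pmul P Q) = pev X P * pev X Q := by
  unfold pmul
  induction P with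
  | nil => simp [pev_nil]
  | cons a P ih =>
    rw [List.flatMap_cons, pev_append, ih, pev_map_mul, pev_cons]
    ring

theorem pev_pneg (P : Poly) (X : ℕ → ℝ) : pev X (pneg P) = -pev X P := by
  unfold pneg
  induction P with
  | nil => simp [pev_nil]
  | cons a P ih =>
    rw [List.map_cons, pev_cons, ih, pev_cons]
    simp only [cv]
    ring

theorem pev_psub (P Q : Poly) (X : ℕ → ℝ) : pev X (psub P Q) = pev X P - pev X Q := by
  rw [psub, pev_append, pev_pneg, sub_eq_add_neg]

theorem pev_sq (P : Poly) (X : ℕ → ℝ) : pev X (sq P) = pev X P ^ 2 := by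
  rw [sq, pev_pmul, _root_.sq]

theorem pev_cst (a : ℕ) (X : ℕ → ℝ) : pev X (cst a) = a := by
  simp [cst, pev, mev, cv]

theorem pev_var (i : ℕ) (X : ℕ → ℝ) : pev X (var i) = X i := by
  have h : ∀ (i : ℕ) (X : ℕ → ℝ), mev X (List.replicate i 0 ++ [1]) = X i := by
    intro i
    induction i with
    | zero => intro X; simp [mev]
    | succ i ih => intro X; rw [List.replicate_succ, List.cons_append, mev, ih]; simp
  simp [var, pev, cv, h]

theorem isPoly_nil (n : ℕ) : IsPoly n [] := by
  intro m hm
  simp at hm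

theorem isPoly_append {n : ℕ} {P Q : Poly} (hP : IsPoly n P) (hQ : IsPoly n Q) : IsPoly n (P ++ Q) := by
  intro m hm
  rcases List.mem_append.1 hm with h | h
  · exact hP m h
  · exact hQ m h

theorem isPoly_pmul {n : ℕ} {P Q : Poly} (hP : IsPoly n P) (hQ : IsPoly n Q) : IsPoly n (pmul P Q) := by
  intro m hm
  simp only [pmul, List.mem_flatMap, List.mem_map] at hm
  obtain ⟨a, ha, b, hb, rfl⟩ := hm
  simp only [addE, List.length_map, List.length_range, max_le_iff]
  exact ⟨hP a ha, hQ b hb⟩

theorem isPoly_pneg {n : ℕ} {P : Poly} (hP : IsPoly n P) : IsPoly n (pneg P) := by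
  intro m hm
  simp only [pneg, List.mem_map] at hm
  obtain ⟨a, ha, rfl⟩ := hm
  exact hP a ha

theorem isPoly_psub {n : ℕ} {P Q : Poly} (hP : IsPoly n P) (hQ : IsPoly n Q) : IsPoly n (psub P Q) :=
  isPoly_append hP (isPoly_pneg hQ)

theorem isPoly_sq {n : ℕ} {P : Poly} (hP : IsPoly n P) : IsPoly n (sq P) := isPoly_pmul hP hP

theorem isPoly_cst (n a : ℕ) : IsPoly n (cst a) := by
  intro m hm
  simp only [cst, List.mem_singleton] at hm
  subst hm
  simp

theorem isPoly_var {n i : ℕ} (h : i < n) : IsPoly n (var i) := by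
  intro m hm
  simp only [var, List.mem_singleton] at hm
  subst hm
  simp
  omega

theorem isPoly_le {m n : ℕ} (h : m ≤ n) {P : Poly} (hP : IsPoly m P) : IsPoly n P :=
  fun x hx => (hP x hx).trans h

/-! ### Computability -/

theorem prim_cmul₂ : Primrec₂ cmul := by
  have a1 : Primrec (fun p : Coef × Coef => p.1.1) := Primrec.fst.comp Primrec.fst
  have a2 : Primrec (fun p : Coef × Coef => p.1.2.1) := Primrec.fst.comp (Primrec.snd.comp Primrec.fst)
  have a3 : Primrec (fun p : Coef × Coef => p.1.2.2) := Primrec.snd.comp (Primrec.snd.comp Primrec.fst)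
  have b1 : Primrec (fun p : Coef × Coef => p.2.1) := Primrec.fst.comp Primrec.snd
  have b2 : Primrec (fun p : Coef × Coef => p.2.2.1) := Primrec.fst.comp (Primrec.snd.comp Primrec.snd)
  have b3 : Primrec (fun p : Coef × Coef => p.2.2.2) := Primrec.snd.comp (Primrec.snd.comp Primrec.snd)
  have m : ∀ {f g : Coef × Coef → ℕ}, Primrec f → Primrec g → Primrec (fun p => f p * g p) := fun hf hg =>
    Primrec.nat_mul.comp hf hg
  have s : ∀ {f g : Coef × Coef → ℕ}, Primrec f → Primrec g → Primrec (fun p => f p + g p) := fun hf hg =>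
    Primrec.nat_add.comp hf hg
  exact Primrec.pair (s (m a1 b1) (m a2 b2)) (Primrec.pair (s (m a1 b2) (m a2 b1)) (s (s (m a3 b3) a3) b3))

theorem prim_addE : Primrec₂ addE := by
  unfold addE
  refine Primrec.list_map (Primrec.list_range.comp (Primrec.nat_max.comp (Primrec.list_length.comp Primrec.fst)
    (Primrec.list_length.comp Primrec.snd))) ?_
  refine Primrec.nat_add.comp ?_ ?_
  · exact (Primrec.list_getD 0).comp (Primrec.fst.comp Primrec.fst) Primrec.snd
  · exact (Primrec.list_getD 0).comp (Primrec.snd.comp Primrec.fst) Primrec.snd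

theorem prim_pmul : Primrec₂ pmul := by
  unfold pmul
  refine Primrec.list_flatMap Primrec.fst ?_
  refine Primrec.list_map (Primrec.snd.comp Primrec.fst) ?_
  refine Primrec.pair ?_ ?_
  · exact prim_cmul₂.comp (Primrec.fst.comp (Primrec.snd.comp Primrec.fst)) (Primrec.fst.comp Primrec.snd)
  · exact prim_addE.comp (Primrec.snd.comp (Primrec.snd.comp Primrec.fst)) (Primrec.snd.comp Primrec.snd)

theorem prim_pneg : Primrec pneg := by
  unfold pneg
  refine Primrec.list_map Primrec.id (Primrec.comp₂ (f := fun m : Mono =>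
    (((m.1.2.1, m.1.1, m.1.2.2), m.2) : Mono)) ?_ Primrec₂.right)
  exact Primrec.pair (Primrec.pair (Primrec.fst.comp (Primrec.snd.comp Primrec.fst))
    (Primrec.pair (Primrec.fst.comp Primrec.fst)
      (Primrec.snd.comp (Primrec.snd.comp Primrec.fst)))) Primrec.snd

theorem prim_psub : Primrec₂ psub := by
  unfold psub
  exact Primrec.list_append.comp Primrec.fst (prim_pneg.comp Primrec.snd)

theorem prim_sq : Primrec sq := by
  unfold sq
  exact prim_pmul.comp Primrec.id Primrec.id

theorem prim_replicate {α : Type} [Primcodable α] : Primrec₂ (fun (n : ℕ) (a : α) => List.replicate n a) := by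
  have h : Primrec₂ (fun (n : ℕ) (a : α) => (List.range n).map (fun _ => a)) := by
    refine Primrec.list_map (Primrec.list_range.comp Primrec.fst) ?_
    exact Primrec.snd.comp Primrec.fst
  refine h.of_eq fun p => ?_
  simp

theorem prim_var : Primrec var := by
  unfold var
  refine Primrec.list_cons.comp (Primrec.pair (Primrec.const _) ?_) (Primrec.const [])
  exact Primrec.list_append.comp (prim_replicate.comp Primrec.id (Primrec.const 0)) (Primrec.const [1])

theorem prim_cst : Primrec cst := by
  unfold cst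
  refine Primrec.list_cons.comp (Primrec.pair (Primrec.pair Primrec.id (Primrec.const _)) (Primrec.const _))
    (Primrec.const [])

end Pool.Agent.H839.PV
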