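import Pool.Agent.H839.PV.Null

/-!
# The value of an explicit integral as a difference of two volumes
-/

set_option autoImplicit false

namespace Pool.Agent.H839.PV

open TH960.PE MeasureTheory

theorem primrel_filter : PrimrecRel (fun (m' : Mono) (q : ℕ × Mono) => padn q.1 m'.2 = padn q.1 q.2.2) := by
  have h1 : Primrec (fun p : Mono × (ℕ × Mono) => padn p.2.1 p.1.2) :=
    prim_padn.comp (Primrec.fst.comp Primrec.snd) (Primrec.snd.comp Primrec.fst)
  have h2 : Primrec (fun p : Mono × (ℕ × Mono) => padn p.2.1 p.2.2.2) :=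
    prim_padn.comp (Primrec.fst.comp Primrec.snd) (Primrec.snd.comp (Primrec.snd.comp Primrec.snd))
  exact Primrec.eq.comp h1 h2

/-- the filter -/
def filt (L : Poly) (b : ℕ × Mono) : Poly := L.filter (fun m' => padn b.1 m'.2 = padn b.1 b.2.2)

theorem prim_filt : Primrec₂ filt := by
  have h1 : Primrec₂ (fun (L : List Mono) (b : ℕ × Mono) => L.filter (fun a => padn b.1 a.2 = padn b.1 b.2.2)) :=
    primrel_filter.listFilter
  exact h1

theorem prim_filter : Primrec (fun q : Mono × (ℕ × Poly) => filt q.2.2 (q.2.1, q.1)) := by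
  have h2 : Primrec (fun q : Mono × (ℕ × Poly) => ((q.2.1, q.1) : ℕ × Mono)) :=
    Primrec.pair (Primrec.fst.comp Primrec.snd) Primrec.fst
  have h3 : Primrec (fun q : Mono × (ℕ × Poly) => q.2.2) := Primrec.snd.comp Primrec.snd
  exact prim_filt.comp h3 h2

theorem primpred_isZ : PrimrecPred (fun p : ℕ × Poly => IsZ p.1 p.2) := by
  have h1 : PrimrecRel (fun (m : Mono) (p : ℕ × Poly) =>
      (csum (filt p.2 (p.1, m))).1 = (csum (filt p.2 (p.1, m))).2.1) := by
    have h2 := prim_csum.comp prim_filter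
    exact Primrec.eq.comp (Primrec.fst.comp h2) (Primrec.fst.comp (Primrec.snd.comp h2))
  have h3 := h1.forall_mem_list
  exact h3.comp Primrec.snd Primrec.id

/-- the strict inequalities of a system, up to null sets -/
def strictify (n : ℕ) (D : Dom) : List Poly :=
  D.flatMap (fun g => if g.1 = true then [g.2] else if IsZ n g.2 then [] else [g.2])

theorem prim_strictify : Primrec₂ strictify := by
  unfold strictify
  refine Primrec.list_flatMap Primrec.snd ?_
  have h0 : Primrec (fun p : (ℕ × Dom) × (Bool × Poly) => ([p.2.2] : List Poly)) :=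
    Primrec.list_cons.comp (Primrec.snd.comp Primrec.snd) (Primrec.const [])
  have h1 : PrimrecPred (fun p : (ℕ × Dom) × (Bool × Poly) => p.2.1 = true) :=
    Primrec.eq.comp (Primrec.fst.comp Primrec.snd) (Primrec.const true)
  have h2 : PrimrecPred (fun p : (ℕ × Dom) × (Bool × Poly) => IsZ p.1.1 p.2.2) :=
    primpred_isZ.comp (Primrec.pair (Primrec.fst.comp Primrec.fst) (Primrec.snd.comp Primrec.snd))
  exact Primrec.ite h1 h0 (Primrec.ite h2 (Primrec.const []) h0)

theorem isPoly_strictify {n : ℕ} {D : Dom} (h : ∀ g ∈ D, IsPoly n g.2) : ∀ A ∈ strictify n D, IsPoly n A := by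
  intro A hA
  simp only [strictify, List.mem_flatMap] at hA
  obtain ⟨g, hg, hA⟩ := hA
  split_ifs at hA with h1 h2
  · simp only [List.mem_singleton] at hA
    subst hA
    exact h g hg
  · simp at hA
  · simp only [List.mem_singleton] at hA
    subst hA
    exact h g hg

theorem strictify_ae {n : ℕ} {D : Dom} (h : ∀ g ∈ D, IsPoly n g.2) :
    ∀ᵐ x : Fin n → ℝ, (InDom (ext x) D ↔ ∀ A ∈ strictify n D, 0 < pev (ext x) A) := by
  induction D with
  | nil =>
    refine Filter.Eventually.of_forall fun x => ?_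
    simp [InDom, strictify]
  | cons g D ih =>
    have hg : IsPoly n g.2 := h g (by simp)
    have h1 : ∀ᵐ x : Fin n → ℝ, (Sat (ext x) g ↔
        ∀ A ∈ (if g.1 = true then [g.2] else if IsZ n g.2 then [] else [g.2]), 0 < pev (ext x) A) := by
      by_cases hb : g.1 = true
      · refine Filter.Eventually.of_forall fun x => ?_
        rw [if_pos hb]
        simp [Sat, hb]
      · rw [if_neg hb]
        have hb' : g.1 = false := by simpa using hb
        by_cases hz : IsZ n g.2
        · refine Filter.Eventually.of_forall fun x => ?_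
          rw [if_pos hz]
          simp [Sat, hb', isZ_pev hg hz]
        · rw [if_neg hz]
          filter_upwards [ae_ne hg (not_isZ hg hz)] with x hx
          simp only [Sat, hb', Bool.false_eq_true, false_and, true_and, false_or, List.mem_singleton, forall_eq]
          exact ⟨fun h => lt_of_le_of_ne h (Ne.symm hx), fun h => h.le⟩
    filter_upwards [h1, ih (fun a ha => h a (by simp [ha]))] with x hx1 hx2
    have e1 : InDom (ext x) (g :: D) ↔ Sat (ext x) g ∧ InDom (ext x) D := by
      simp [InDom]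
    rw [e1, hx1, hx2]
    simp only [strictify, List.flatMap_cons, List.mem_append]
    constructor
    · rintro ⟨a, b⟩ A (hA | hA)
      · exact a A hA
      · exact b A hA
    · intro a
      exact ⟨fun A hA => a A (Or.inl hA), fun A hA => a A (Or.inr hA)⟩

/-- the system of the region between `0` and the positive part of the integrand `P / Q` on the domain `D` -/
def sys (c : Code) : List Poly :=
  strictify c.1 c.2.2.2 ++ [var c.1, psub (pmul c.2.1 c.2.2.1) (pmul (var c.1) (sq c.2.2.1))]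

/-- the same for the negative part -/
def sysN (c : Code) : List Poly :=
  strictify c.1 c.2.2.2 ++ [var c.1, psub (pneg (pmul c.2.1 c.2.2.1)) (pmul (var c.1) (sq c.2.2.1))]

theorem prim_sys : Primrec sys := by
  unfold sys
  have n0 : Primrec (fun c : Code => c.1) := Primrec.fst
  have P0 : Primrec (fun c : Code => c.2.1) := Primrec.fst.comp Primrec.snd
  have Q0 : Primrec (fun c : Code => c.2.2.1) := Primrec.fst.comp (Primrec.snd.comp Primrec.snd)
  have D0 : Primrec (fun c : Code => c.2.2.2) := Primrec.snd.comp (Primrec.snd.comp Primrec.snd)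
  have h1 : Primrec (fun c : Code => psub (pmul c.2.1 c.2.2.1) (pmul (var c.1) (sq c.2.2.1))) :=
    prim_psub.comp (prim_pmul.comp P0 Q0) (prim_pmul.comp (prim_var.comp n0) (prim_sq.comp Q0))
  exact Primrec.list_append.comp (prim_strictify.comp n0 D0)
    (Primrec.list_cons.comp (prim_var.comp n0) (Primrec.list_cons.comp h1 (Primrec.const [])))

theorem prim_sysN : Primrec sysN := by
  unfold sysN
  have n0 : Primrec (fun c : Code => c.1) := Primrec.fst
  have P0 : Primrec (fun c : Code => c.2.1) := Primrec.fst.comp Primrec.snd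
  have Q0 : Primrec (fun c : Code => c.2.2.1) := Primrec.fst.comp (Primrec.snd.comp Primrec.snd)
  have D0 : Primrec (fun c : Code => c.2.2.2) := Primrec.snd.comp (Primrec.snd.comp Primrec.snd)
  have h1 : Primrec (fun c : Code => psub (pneg (pmul c.2.1 c.2.2.1)) (pmul (var c.1) (sq c.2.2.1))) :=
    prim_psub.comp (prim_pneg.comp (prim_pmul.comp P0 Q0)) (prim_pmul.comp (prim_var.comp n0) (prim_sq.comp Q0))
  exact Primrec.list_append.comp (prim_strictify.comp n0 D0)
    (Primrec.list_cons.comp (prim_var.comp n0) (Primrec.list_cons.comp h1 (Primrec.const [])))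

theorem sys_set (P Q : ℝ) : {s : ℝ | 0 < s ∧ 0 < P * Q - s * Q ^ 2} = Set.Ioo 0 (P / Q) := by
  ext s
  simp only [Set.mem_ofPred_eq, Set.mem_Ioo]
  refine and_congr_right fun _ => ?_
  by_cases hQ : Q = 0
  · subst hQ
    simp only [mul_zero, ne_eq, OfNat.ofNat_ne_zero, not_false_eq_true, zero_pow, sub_self, lt_self_iff_false, div_zero,
      false_iff, not_lt]
    linarith
  · have h1 : 0 < Q ^ 2 := by positivity
    have h2 : P / Q = P * Q / Q ^ 2 := by field_simp
    rw [h2, lt_div_iff₀ h1, sub_pos]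

theorem ext_base {n : ℕ} (y : Fin (n + 1) → ℝ) : ∀ i < n, ext y i = ext (base 1 y) i := by
  intro i hi
  rw [ext_of_lt _ hi, ext_of_lt y (by omega : i < n + 1)]
  rfl

theorem vol_region {n : ℕ} {P Q : Poly} (hP : IsPoly n P) (hQ : IsPoly n Q) {L : List Poly}
    (hL : ∀ A ∈ L, IsPoly n A) :
    vol (n + 1) (fun X => (∀ A ∈ L, 0 < pev X A) ∧ 0 < X n ∧ 0 < pev X P * pev X Q - X n * pev X Q ^ 2) =
      ∫⁻ x in {x : Fin n → ℝ | ∀ A ∈ L, 0 < pev (ext x) A}, ENNReal.ofReal (pev (ext x) P / pev (ext x) Q) := by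
  have hm : Measurable (fun x : Fin n → ℝ => pev (ext x) P / pev (ext x) Q) := (meas_pev P).div (meas_pev Q)
  have a1 : Measurable (fun p : (Fin n → ℝ) × (Fin 1 → ℝ) => p.2 0) := by fun_prop
  have a2 : Measurable (fun p : (Fin n → ℝ) × (Fin 1 → ℝ) => pev (ext p.1) P / pev (ext p.1) Q) :=
    hm.comp measurable_fst
  have h1 := subgraph (fun x : Fin n → ℝ => pev (ext x) P / pev (ext x) Q) {x | ∀ A ∈ L, 0 < pev (ext x) A}
    (Loc.all hL).meas (fun c => Set.Ioo 0 c)
    ((measurableSet_lt measurable_const a1).inter (measurableSet_lt a1 a2))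
    (fun c => c) (fun c => by rw [Real.volume_Ioo, sub_zero])
  rw [← h1]
  unfold vol
  congr 1
  ext y
  have e := ext_base y
  have e1 : ext y n = y (Fin.natAdd n 0) := by
    rw [ext_of_lt y (by omega : n < n + 1)]
    rfl
  simp only [Set.mem_ofPred_eq]
  rw [(Loc.all hL).congr _ _ e, pev_congr n P hP _ _ e, pev_congr n Q hQ _ _ e, e1, ← sys_set]
  rfl

theorem lint_code {c : Code} (hD : ∀ g ∈ c.2.2.2, IsPoly c.1 g.2) (F : (Fin c.1 → ℝ) → ℝ) :
    ∫⁻ x in {x : Fin c.1 → ℝ | ∀ A ∈ strictify c.1 c.2.2.2, 0 < pev (ext x) A}, ENNReal.ofReal (F x) =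
      ∫⁻ x : Fin c.1 → ℝ, ENNReal.ofReal (open Classical in if InDom (ext x) c.2.2.2 then F x else 0) := by
  classical
  rw [← lintegral_indicator (Loc.all (isPoly_strictify hD)).meas]
  refine lintegral_congr_ae ?_
  filter_upwards [strictify_ae hD] with x hx
  by_cases h : InDom (ext x) c.2.2.2
  · rw [Set.indicator_of_mem (show x ∈ {x : Fin c.1 → ℝ | ∀ A ∈ strictify c.1 c.2.2.2, 0 < pev (ext x) A} from hx.1 h)]
    simp [h]
  · rw [Set.indicator_of_notMem (show x ∉ {x : Fin c.1 → ℝ | ∀ A ∈ strictify c.1 c.2.2.2, 0 < pev (ext x) A} from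
      fun h' => h (hx.2 h'))]
    simp [h]

theorem vol_sys {c : Code} (hc : Adm c) : vol (c.1 + 1) (fun X => ∀ A ∈ sys c, 0 < pev X A) =
    ∫⁻ x : Fin c.1 → ℝ, ENNReal.ofReal (integrand (ext x) c) := by
  have h1 := vol_region hc.1 hc.2.1 (isPoly_strictify hc.2.2.1)
  rw [lint_code hc.2.2.1 (fun x => pev (ext x) c.2.1 / pev (ext x) c.2.2.1)] at h1
  have h2 : vol (c.1 + 1) (fun X => ∀ A ∈ sys c, 0 < pev X A) = vol (c.1 + 1) (fun X =>
      (∀ A ∈ strictify c.1 c.2.2.2, 0 < pev X A) ∧ 0 < X c.1 ∧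
        0 < pev X c.2.1 * pev X c.2.2.1 - X c.1 * pev X c.2.2.1 ^ 2) := by
    refine vol_congr fun X => ?_
    simp only [sys, List.forall_mem_append, List.forall_mem_cons, List.not_mem_nil, false_imp_iff, implies_true,
      and_true, pev_var, pev_psub, pev_pmul, pev_sq]
  rw [h2, h1]
  refine lintegral_congr fun x => ?_
  rw [integrand]

theorem vol_sysN {c : Code} (hc : Adm c) : vol (c.1 + 1) (fun X => ∀ A ∈ sysN c, 0 < pev X A) =
    ∫⁻ x : Fin c.1 → ℝ, ENNReal.ofReal (-integrand (ext x) c) := by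
  have h1 := vol_region (isPoly_pneg hc.1) hc.2.1 (isPoly_strictify hc.2.2.1)
  rw [lint_code hc.2.2.1 (fun x => pev (ext x) (pneg c.2.1) / pev (ext x) c.2.2.1)] at h1
  have h2 : vol (c.1 + 1) (fun X => ∀ A ∈ sysN c, 0 < pev X A) = vol (c.1 + 1) (fun X =>
      (∀ A ∈ strictify c.1 c.2.2.2, 0 < pev X A) ∧ 0 < X c.1 ∧
        0 < pev X (pneg c.2.1) * pev X c.2.2.1 - X c.1 * pev X c.2.2.1 ^ 2) := by
    refine vol_congr fun X => ?_
    simp only [sysN, List.forall_mem_append, List.forall_mem_cons, List.not_mem_nil, false_imp_iff, implies_true,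
      and_true, pev_var, pev_psub, pev_pmul, pev_sq, pev_pneg, neg_mul]
  rw [h2, h1]
  refine lintegral_congr fun x => ?_
  rw [integrand, pev_pneg]
  congr 1
  split_ifs
  · rw [neg_div]
  · rw [neg_zero]

theorem isPoly_sys {c : Code} (hc : Adm c) : ∀ A ∈ sys c, IsPoly (c.1 + 1) A := by
  have h1 : IsPoly (c.1 + 1) c.2.1 := isPoly_le (by omega) hc.1
  have h2 : IsPoly (c.1 + 1) c.2.2.1 := isPoly_le (by omega) hc.2.1
  have h3 : IsPoly (c.1 + 1) (var c.1) := isPoly_var (by omega)
  intro A hA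
  simp only [sys, List.mem_append, List.mem_cons, List.not_mem_nil, or_false] at hA
  rcases hA with h | rfl | rfl
  · exact isPoly_le (by omega) (isPoly_strictify hc.2.2.1 A h)
  · exact h3
  · exact isPoly_psub (isPoly_pmul h1 h2) (isPoly_pmul h3 (isPoly_sq h2))

theorem isPoly_sysN {c : Code} (hc : Adm c) : ∀ A ∈ sysN c, IsPoly (c.1 + 1) A := by
  have h1 : IsPoly (c.1 + 1) c.2.1 := isPoly_le (by omega) hc.1
  have h2 : IsPoly (c.1 + 1) c.2.2.1 := isPoly_le (by omega) hc.2.1
  have h3 : IsPoly (c.1 + 1) (var c.1) := isPoly_var (by omega)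
  intro A hA
  simp only [sysN, List.mem_append, List.mem_cons, List.not_mem_nil, or_false] at hA
  rcases hA with h | rfl | rfl
  · exact isPoly_le (by omega) (isPoly_strictify hc.2.2.1 A h)
  · exact h3
  · exact isPoly_psub (isPoly_pneg (isPoly_pmul h1 h2)) (isPoly_pmul h3 (isPoly_sq h2))

/-- the volumes are finite and the value of the integral is their difference -/
theorem val_eq {c : Code} (hc : Adm c) :
    vol (c.1 + 1) (fun X => ∀ A ∈ sys c, 0 < pev X A) ≠ ⊤ ∧ vol (c.1 + 1) (fun X => ∀ A ∈ sysN c, 0 < pev X A) ≠ ⊤ ∧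
    val c = (vol (c.1 + 1) (fun X => ∀ A ∈ sys c, 0 < pev X A)).toReal -
      (vol (c.1 + 1) (fun X => ∀ A ∈ sysN c, 0 < pev X A)).toReal := by
  have hi := hc.2.2.2.2
  rw [vol_sys hc, vol_sysN hc]
  exact ⟨hi.lintegral_lt_top.ne, hi.neg.lintegral_lt_top.ne, integral_eq_lintegral_pos_part_sub_lintegral_neg_part hi⟩

end Pool.Agent.H839.PV
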