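import Pool.Agent.H839.PV.Union

/-!
# Deciding equality of periods and of volumes
-/

set_option autoImplicit false
set_option synthInstance.maxSize 2000

namespace Pool.Agent.H839.PV

open TH960.PE MeasureTheory

/-! ### Integer coefficients -/

/-- the product of the denominators -/
def den (P : Poly) : ℕ := P.foldr (fun m d => (m.1.2.2 + 1) * d) 1

/-- multiplication by the product of the denominators -/
def clr (P : Poly) : Poly := P.map (fun m =>
  ((m.1.1 * (den P / (m.1.2.2 + 1)), m.1.2.1 * (den P / (m.1.2.2 + 1)), 0), m.2))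

theorem den_pos (P : Poly) : 0 < den P := by
  induction P with
  | nil => simp [den]
  | cons m P ih =>
    have h : den (m :: P) = (m.1.2.2 + 1) * den P := rfl
    rw [h]
    positivity

theorem dvd_den (P : Poly) : ∀ m ∈ P, (m.1.2.2 + 1) ∣ den P := by
  induction P with
  | nil => simp
  | cons m P ih =>
    intro a ha
    have h : den (m :: P) = (m.1.2.2 + 1) * den P := rfl
    rw [h]
    rcases List.mem_cons.1 ha with rfl | ha
    · exact dvd_mul_right _ _
    · exact (ih a ha).mul_left _

theorem pev_clr (P : Poly) (X : ℕ → ℝ) : pev X (clr P) = den P * pev X P := by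
  have h : ∀ (D : ℕ) (Q : Poly), (∀ m ∈ Q, (m.1.2.2 + 1) ∣ D) →
      pev X (Q.map (fun m => (((m.1.1 * (D / (m.1.2.2 + 1)), m.1.2.1 * (D / (m.1.2.2 + 1)), 0), m.2) : Mono))) =
        D * pev X Q := by
    intro D Q
    induction Q with
    | nil => simp [pev_nil]
    | cons m Q ih =>
      intro hQ
      rw [List.map_cons, pev_cons, pev_cons, ih (fun a ha => hQ a (by simp [ha]))]
      obtain ⟨k, hk⟩ := hQ m (by simp)
      have h1 : (m.1.2.2 : ℝ) + 1 ≠ 0 := by positivity
      have h2 : D / (m.1.2.2 + 1) = k := by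
        rw [hk]
        exact Nat.mul_div_cancel_left _ (by omega)
      rw [h2]
      have h3 : (D : ℝ) = ((m.1.2.2 : ℝ) + 1) * k := by
        rw [hk]
        push_cast
        ring
      rw [h3]
      simp only [cv]
      push_cast
      field_simp
      ring
  exact h (den P) P (dvd_den P)

theorem pos_clr (P : Poly) (X : ℕ → ℝ) : 0 < pev X (clr P) ↔ 0 < pev X P := by
  rw [pev_clr]
  exact mul_pos_iff_of_pos_left (by exact_mod_cast den_pos P)

theorem isPoly_clr {n : ℕ} {P : Poly} (hP : IsPoly n P) : IsPoly n (clr P) := by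
  intro m hm
  simp only [clr, List.mem_map] at hm
  obtain ⟨a, ha, rfl⟩ := hm
  exact hP a ha

/-- integer coefficients -/
def IsInt (P : Poly) : Prop := ∀ m ∈ P, m.1.2.2 = 0

theorem isInt_clr (P : Poly) : IsInt (clr P) := by
  intro m hm
  simp only [clr, List.mem_map] at hm
  obtain ⟨a, _, rfl⟩ := hm
  rfl

theorem prim_den : Primrec den := by
  have h1 : Primrec₂ (fun (_ : Poly) (q : Mono × ℕ) => (q.1.1.2.2 + 1) * q.2) :=
    Primrec.nat_mul.comp (Primrec.succ.comp (Primrec.snd.comp (Primrec.snd.comp (Primrec.fst.comp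
      (Primrec.fst.comp Primrec.snd))))) (Primrec.snd.comp Primrec.snd)
  have h2 := Primrec.list_foldr (f := fun P : Poly => P) Primrec.id (Primrec.const (1 : ℕ)) h1
  exact h2

theorem prim_clr : Primrec clr := by
  have d0 : Primrec (fun p : Poly × Mono => den p.1 / (p.2.1.2.2 + 1)) :=
    Primrec.nat_div.comp (prim_den.comp Primrec.fst) (Primrec.succ.comp (Primrec.snd.comp (Primrec.snd.comp
      (Primrec.fst.comp Primrec.snd))))
  have a0 : Primrec (fun p : Poly × Mono => p.2.1.1) := Primrec.fst.comp (Primrec.fst.comp Primrec.snd)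
  have b0 : Primrec (fun p : Poly × Mono => p.2.1.2.1) :=
    Primrec.fst.comp (Primrec.snd.comp (Primrec.fst.comp Primrec.snd))
  have e0 : Primrec (fun p : Poly × Mono => p.2.2) := Primrec.snd.comp Primrec.snd
  have h1 : Primrec₂ (fun (P : Poly) (m : Mono) =>
      (((m.1.1 * (den P / (m.1.2.2 + 1)), m.1.2.1 * (den P / (m.1.2.2 + 1)), 0), m.2) : Mono)) :=
    Primrec.pair (Primrec.pair (Primrec.nat_mul.comp a0 d0) (Primrec.pair (Primrec.nat_mul.comp b0 d0)
      (Primrec.const 0))) e0
  have h2 := Primrec.list_map (f := fun P : Poly => P) Primrec.id h1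
  exact h2

/-! ### The reduction -/

/-- The volume of the region `f > 0` of `ℝ ^ n`, for `f` a polynomial in `n` variables. -/
noncomputable def volP (f : ℕ × Poly) : ENNReal := volume {x : Fin f.1 → ℝ | 0 < pev (ext x) f.2}

/-- A polynomial in `n` variables with integer coefficients whose region `f > 0` has a finite volume. -/
structure FinVol (f : ℕ × Poly) : Prop where
  isPoly : IsPoly f.1 f.2
  isInt : IsInt f.2
  finite : volP f ≠ ⊤

/-- There is an algorithm which halts for every two polynomials `f`, `g` with integer coefficients, in the same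
number of variables, with finite volumes of `f > 0` and `g > 0`, and decides whether these volumes are equal. -/
def VolDecidable : Prop := ∃ φ : (ℕ × Poly) × (ℕ × Poly) →. Bool, Partrec φ ∧
  ∀ f g : ℕ × Poly, f.1 = g.1 → FinVol f → FinVol g → ∃ b ∈ φ (f, g), (b = true ↔ volP f = volP g)

/-- the two polynomials of a pair of codes -/
def red (p : Code × Code) : (ℕ × Poly) × (ℕ × Poly) :=
  (((un (p.1.1 + 1, sys p.1) (p.2.1 + 1, sysN p.2)).1, clr (un (p.1.1 + 1, sys p.1) (p.2.1 + 1, sysN p.2)).2),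
    ((un (p.1.1 + 1, sysN p.1) (p.2.1 + 1, sys p.2)).1, clr (un (p.1.1 + 1, sysN p.1) (p.2.1 + 1, sys p.2)).2))

theorem prim_red : Primrec red := by
  have h1 : Primrec (fun p : Code × Code => p.1) := Primrec.fst
  have h2 : Primrec (fun p : Code × Code => p.2) := Primrec.snd
  have n1 : Primrec (fun p : Code × Code => p.1.1 + 1) := Primrec.succ.comp (Primrec.fst.comp h1)
  have n2 : Primrec (fun p : Code × Code => p.2.1 + 1) := Primrec.succ.comp (Primrec.fst.comp h2)
  have u1 : Primrec (fun p : Code × Code => un (p.1.1 + 1, sys p.1) (p.2.1 + 1, sysN p.2)) :=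
    prim_un.comp (Primrec.pair n1 (prim_sys.comp h1)) (Primrec.pair n2 (prim_sysN.comp h2))
  have u2 : Primrec (fun p : Code × Code => un (p.1.1 + 1, sysN p.1) (p.2.1 + 1, sys p.2)) :=
    prim_un.comp (Primrec.pair n1 (prim_sysN.comp h1)) (Primrec.pair n2 (prim_sys.comp h2))
  exact Primrec.pair (Primrec.pair (Primrec.fst.comp u1) (prim_clr.comp (Primrec.snd.comp u1)))
    (Primrec.pair (Primrec.fst.comp u2) (prim_clr.comp (Primrec.snd.comp u2)))

theorem length_sys (c : Code) : (sysN c).length = (sys c).length := by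
  simp [sys, sysN]

theorem length_sel (n k a b : ℕ) (L M : List Poly) (h : L.length = M.length) :
    (sel n k a L).length = (sel n k b M).length := by
  simp [sel, h]

theorem volP_clr (f : ℕ × Poly) : volP (f.1, clr f.2) = volP f := by
  unfold volP
  congr 1
  ext x
  exact pos_clr _ _

theorem volP_un {s t : ℕ × List Poly} (hs : ∀ A ∈ s.2, IsPoly s.1 A) (ht : ∀ A ∈ t.2, IsPoly t.1 A) :
    volP (un s t) = vol s.1 (fun X => ∀ A ∈ s.2, 0 < pev X A) + vol t.1 (fun X => ∀ A ∈ t.2, 0 < pev X A) :=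
  un_vol hs ht

theorem un_fst (s t : ℕ × List Poly) : (un s t).1 =
    s.1 + t.1 + 1 + 3 * ((sel s.1 t.1 0 s.2).length + (sel t.1 s.1 1 t.2).length) := part_fst _ _ _ _ _

theorem finVol_un {s t : ℕ × List Poly} (hs : ∀ A ∈ s.2, IsPoly s.1 A) (ht : ∀ A ∈ t.2, IsPoly t.1 A)
    (h1 : vol s.1 (fun X => ∀ A ∈ s.2, 0 < pev X A) ≠ ⊤) (h2 : vol t.1 (fun X => ∀ A ∈ t.2, 0 < pev X A) ≠ ⊤) :
    FinVol ((un s t).1, clr (un s t).2) where
  isPoly := isPoly_clr (un_isPoly hs ht)
  isInt := isInt_clr _
  finite := by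
    rw [volP_clr, volP_un hs ht]
    exact ENNReal.add_ne_top.2 ⟨h1, h2⟩

theorem red_spec {c d : Code} (hc : Adm c) (hd : Adm d) :
    (red (c, d)).1.1 = (red (c, d)).2.1 ∧ FinVol (red (c, d)).1 ∧ FinVol (red (c, d)).2 ∧
      (volP (red (c, d)).1 = volP (red (c, d)).2 ↔ val c = val d) := by
  obtain ⟨f1, f2, v1⟩ := val_eq hc
  obtain ⟨g1, g2, v2⟩ := val_eq hd
  simp only [red]
  refine ⟨?_, finVol_un (isPoly_sys hc) (isPoly_sysN hd) f1 g2, finVol_un (isPoly_sysN hc) (isPoly_sys hd) f2 g1, ?_⟩
  · rw [un_fst, un_fst]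
    simp only [length_sel (c.1 + 1) (d.1 + 1) 0 0 (sysN c) (sys c) (length_sys c),
      length_sel (d.1 + 1) (c.1 + 1) 1 1 (sysN d) (sys d) (length_sys d)]
  · rw [volP_clr, volP_clr, volP_un (isPoly_sys hc) (isPoly_sysN hd), volP_un (isPoly_sysN hc) (isPoly_sys hd)]
    simp only
    rw [v1, v2, ← ENNReal.toReal_eq_toReal_iff' (ENNReal.add_ne_top.2 ⟨f1, g2⟩)
      (ENNReal.add_ne_top.2 ⟨f2, g1⟩), ENNReal.toReal_add f1 g2, ENNReal.toReal_add f2 g1]
    constructor <;> intro h <;> linarith

theorem dec_of_vol (h : VolDecidable) : AlgDecidable (fun a b => a = b) := by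
  obtain ⟨φ, hφ, hd⟩ := h
  have hr : Computable red := prim_red.to_comp
  refine ⟨fun x => (φ (red (x.1.1, x.2.1))).bind (fun b => (φ (red (x.1.2, x.2.2))).map (fun b' => b && b')), ?_, ?_⟩
  · have h1 : Computable (fun x : Pres × Pres => red (x.1.1, x.2.1)) :=
      hr.comp ((Computable.fst.comp Computable.fst).pair (Computable.fst.comp Computable.snd))
    have h2 : Computable (fun x : Pres × Pres => red (x.1.2, x.2.2)) :=
      hr.comp ((Computable.snd.comp Computable.fst).pair (Computable.snd.comp Computable.snd))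
    refine (hφ.comp h1).bind ?_
    refine Partrec.map (hφ.comp (h2.comp Computable.fst)) ?_
    exact (Primrec.and.comp₂ (Primrec.snd.comp₂ Primrec₂.left) Primrec₂.right).to_comp
  · intro p q hp hq
    obtain ⟨a1, a2, a3, a4⟩ := red_spec hp.1 hq.1
    obtain ⟨b1, b2, b3, b4⟩ := red_spec hp.2 hq.2
    obtain ⟨b, hb, h⟩ := hd _ _ a1 a2 a3
    obtain ⟨b', hb', h'⟩ := hd _ _ b1 b2 b3
    refine ⟨b && b', ?_, ?_⟩
    · exact Part.mem_bind_iff.2 ⟨b, hb, (Part.mem_map_iff _).2 ⟨b', hb', rfl⟩⟩
    · rw [Bool.and_eq_true, h, h', a4, b4]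
      constructor
      · rintro ⟨h1, h2⟩
        simp only [pval, h1, h2]
      · intro h1
        have h2 := congrArg Complex.re h1
        have h3 := congrArg Complex.im h1
        simp [pval] at h2 h3
        exact ⟨h2, h3⟩

/-! ### The other direction -/

/-- the volume as an explicit integral -/
def volC (f : ℕ × Poly) : Code := (f.1, cst 1, cst 1, [(true, f.2)])

theorem prim_volC : Primrec volC := by
  unfold volC
  exact Primrec.pair Primrec.fst (Primrec.pair (Primrec.const _) (Primrec.pair (Primrec.const _)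
    (Primrec.list_cons.comp (Primrec.pair (Primrec.const true) Primrec.snd) (Primrec.const []))))

theorem integrand_volC (f : ℕ × Poly) (X : ℕ → ℝ) [Decidable (0 < pev X f.2)] :
    integrand X (volC f) = if 0 < pev X f.2 then 1 else 0 := by
  classical
  unfold integrand volC
  have h : InDom X [(true, f.2)] ↔ 0 < pev X f.2 := by
    simp [InDom, Sat]
  simp only [pev_cst, Nat.cast_one, div_one, h]

theorem volC_spec {f : ℕ × Poly} (hP : IsPoly f.1 f.2) (hf : volP f ≠ ⊤) : Adm (volC f) ∧
    val (volC f) = (volP f).toReal := by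
  classical
  have hm : MeasurableSet {x : Fin f.1 → ℝ | 0 < pev (ext x) f.2} := measurableSet_lt measurable_const (meas_pev _)
  have h1 : (fun x : Fin f.1 → ℝ => integrand (ext x) (volC f)) =
      {x : Fin f.1 → ℝ | 0 < pev (ext x) f.2}.indicator (fun _ => (1 : ℝ)) := by
    funext x
    rw [integrand_volC]
    simp [Set.indicator]
  constructor
  · refine ⟨isPoly_cst _ _, isPoly_cst _ _, ?_, ⟨fun _ => 0, ?_⟩, ?_⟩
    · intro g hg
      simp only [volC, List.mem_singleton] at hg
      subst hg
      exact hP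
    · simp [volC, pev_cst]
    · show Integrable (fun x : Fin f.1 → ℝ => integrand (ext x) (volC f))
      rw [h1, integrable_indicator_iff hm]
      exact integrableOn_const hf
  · show ∫ x : Fin f.1 → ℝ, integrand (ext x) (volC f) = _
    rw [h1, integral_indicator hm]
    simp [volP, Measure.real]

theorem vol_of_dec (h : AlgDecidable (fun a b => a = b)) : VolDecidable := by
  obtain ⟨φ, hφ, hd⟩ := h
  refine ⟨fun x => φ ((volC x.1, volC x.1), (volC x.2, volC x.2)), ?_, ?_⟩
  · have h1 : Primrec (fun x : (ℕ × Poly) × (ℕ × Poly) => volC x.1) := prim_volC.comp Primrec.fst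
    have h2 : Primrec (fun x : (ℕ × Poly) × (ℕ × Poly) => volC x.2) := prim_volC.comp Primrec.snd
    exact hφ.comp (Primrec.pair (Primrec.pair h1 h1) (Primrec.pair h2 h2)).to_comp
  · intro f g _ hf hg
    obtain ⟨a1, a2⟩ := volC_spec hf.isPoly hf.finite
    obtain ⟨b1, b2⟩ := volC_spec hg.isPoly hg.finite
    obtain ⟨b, hb, h⟩ := hd (volC f, volC f) (volC g, volC g) ⟨a1, a1⟩ ⟨b1, b1⟩
    refine ⟨b, hb, ?_⟩
    rw [h, pval, pval]
    simp only [a2, b2]
    rw [← ENNReal.toReal_eq_toReal_iff' hf.finite hg.finite]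
    constructor
    · intro h1
      have h2 := congrArg Complex.re h1
      simpa using h2
    · intro h1
      rw [h1]

end Pool.Agent.H839.PV
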