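import Pool.Agent.H839.PV.Dec

/-!
# Equality of periods is decidable if and only if equality of the volumes of regions `f > 0`, `g > 0` is

The problem asks for an algorithm which decides whether two periods, given by explicit integrals of rational
functions over semialgebraic domains, are equal. It is shown that there is such an algorithm if and only if there
is an algorithm which, given two polynomials `f`, `g` with **integer** coefficients in the **same** number of
variables such that the regions `f > 0` and `g > 0` have finite volumes, decides whether these volumes are equal.

The reduction is explicit (primitive recursive):
* weak inequalities become strict ones, after a zero test for polynomials;
* an integral of `P / Q` is the difference of the volumes of two regions given by systems of strict inequalities;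
* two inequalities `A > 0`, `B > 0` are merged into one, with three new variables: with `a = u² A - 1`,
  `b = v² B - 1` the set `225 (1 - a² - b²) (u A a)² (v B b)² > 64 w²` of the `(u, v, w)`-space has volume `1` if
  `A, B > 0` and is empty otherwise;
* if `F > 0` and `G > 0` are disjoint then their union is `- F G > 0`, up to a null set.

The codes of explicit integrals are those of the library (`Pool.Agent.TH960.PE`).
-/

set_option autoImplicit false
set_option synthInstance.maxSize 2000

namespace Pool.Agent.H839.PV.EqVol

open Pool.Agent.TH960.PE Pool.Agent.H839.PV

/-- **Theorem.** There is an algorithm which decides equality of two periods given by explicit integrals if and
only if there is one which decides equality of the volumes of two regions `f > 0`, `g > 0`, for polynomials `f`, `g`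
with integer coefficients in the same number of variables. -/
theorem result : AlgDecidable (fun a b => a = b) ↔ VolDecidable := ⟨vol_of_dec, dec_of_vol⟩

end Pool.Agent.H839.PV.EqVol
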