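import Pool.Agent.H839.PV.Gad
import Pool.Graph.R_pool_sql_team_seeded_ab47071d.TH960.PE.Fub

/-!
# Merging two inequalities
-/

set_option autoImplicit false

namespace Pool.Agent.H839.PV

open MeasureTheory Set

theorem peel {n : ℕ} (E : Set (Fin (n + 1) → ℝ)) (hE : MeasurableSet E) :
    volume E = ∫⁻ t : ℝ, volume {x : Fin n → ℝ | (Fin.cons t x : Fin (n + 1) → ℝ) ∈ E} := by
  have h1 := (volume_preserving_piFinSuccAbove (fun _ : Fin (n + 1) => ℝ) 0).symm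
  rw [← h1.measure_preimage_equiv E]
  rw [Measure.volume_eq_prod, Measure.prod_apply (h1.measurable hE)]
  apply lintegral_congr
  intro t
  congr 1
  ext x
  simp only [mem_preimage, mem_ofPred_eq]
  rw [MeasurableEquiv.piFinSuccAbove_symm_apply]
  simp only [Fin.insertNthEquiv_zero]
  exact Iff.rfl

theorem vol1 (P : ℝ → Prop) : volume {z : Fin 1 → ℝ | P (z 0)} = volume {w : ℝ | P w} := by
  have h1 := (volume_preserving_funUnique (Fin 1) ℝ)
  rw [← h1.measure_preimage_equiv {w : ℝ | P w}]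
  rfl

theorem vol3 (P : ℝ → ℝ → ℝ → Prop) (hP : MeasurableSet {z : Fin 3 → ℝ | P (z 0) (z 1) (z 2)}) :
    volume {z : Fin 3 → ℝ | P (z 0) (z 1) (z 2)} = ∫⁻ u, ∫⁻ v, volume {w | P u v w} := by
  rw [peel _ hP]
  apply lintegral_congr
  intro u
  have h1 : {x : Fin 2 → ℝ | (Fin.cons u x : Fin 3 → ℝ) ∈ {z : Fin 3 → ℝ | P (z 0) (z 1) (z 2)}} =
      {x : Fin 2 → ℝ | P u (x 0) (x 1)} := rfl
  rw [h1]
  have h2 : MeasurableSet {x : Fin 2 → ℝ | P u (x 0) (x 1)} := by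
    have h3 : Measurable (fun x : Fin 2 → ℝ => (Fin.cons u x : Fin 3 → ℝ)) := by
      rw [measurable_pi_iff]
      intro i
      refine Fin.cases ?_ (fun j => ?_) i
      · simp
      · simpa using measurable_pi_apply j
    exact h3 hP
  rw [peel _ h2]
  apply lintegral_congr
  intro v
  exact vol1 (fun w => P u v w)

theorem gad_meas : Measurable (fun p : ℝ × ℝ × ℝ × ℝ × ℝ => gad p.1 p.2.1 p.2.2.1 p.2.2.2.1 p.2.2.2.2) := by
  unfold gad
  fun_prop

theorem gad_vol3 (a b : ℝ) : volume {z : Fin 3 → ℝ | 0 < gad a b (z 0) (z 1) (z 2)} =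
    if 0 < a ∧ 0 < b then 1 else 0 := by
  rw [vol3 (fun u v w => 0 < gad a b u v w), gad_vol]
  apply measurableSet_lt measurable_const
  unfold gad
  fun_prop

/-- The merged region over a measurable set `S`. -/
theorem merge {n : ℕ} (f g : (Fin n → ℝ) → ℝ) (hf : Measurable f) (hg : Measurable g) (S : Set (Fin n → ℝ))
    (hS : MeasurableSet S) :
    volume {y : Fin (n + 3) → ℝ | (fun i : Fin n => y (i.castAdd 3)) ∈ S ∧
      0 < gad (f (fun i : Fin n => y (i.castAdd 3))) (g (fun i : Fin n => y (i.castAdd 3)))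
        (y (Fin.natAdd n 0)) (y (Fin.natAdd n 1)) (y (Fin.natAdd n 2))} =
    volume {x | x ∈ S ∧ 0 < f x ∧ 0 < g x} := by
  classical
  have h1 := TH960.PE.eqv_mp n 3
  rw [← h1.measure_preimage_equiv]
  have h2 : ∀ p : (Fin n → ℝ) × (Fin 3 → ℝ),
      (fun i : Fin n => TH960.PE.eqv n 3 p (i.castAdd 3)) = p.1 := by
    intro p
    funext i
    exact TH960.PE.eqv_castAdd n 3 p i
  have h3 : TH960.PE.eqv n 3 ⁻¹' {y : Fin (n + 3) → ℝ | (fun i : Fin n => y (i.castAdd 3)) ∈ S ∧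
      0 < gad (f (fun i : Fin n => y (i.castAdd 3))) (g (fun i : Fin n => y (i.castAdd 3)))
        (y (Fin.natAdd n 0)) (y (Fin.natAdd n 1)) (y (Fin.natAdd n 2))} =
      {p | p.1 ∈ S ∧ 0 < gad (f p.1) (g p.1) (p.2 0) (p.2 1) (p.2 2)} := by
    ext p
    simp only [mem_preimage, mem_ofPred_eq, h2, TH960.PE.eqv_natAdd]
  rw [h3]
  have hm : MeasurableSet {p : (Fin n → ℝ) × (Fin 3 → ℝ) | p.1 ∈ S ∧
      0 < gad (f p.1) (g p.1) (p.2 0) (p.2 1) (p.2 2)} := by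
    have hm1 : MeasurableSet {p : (Fin n → ℝ) × (Fin 3 → ℝ) | 0 < gad (f p.1) (g p.1) (p.2 0) (p.2 1) (p.2 2)} :=
      measurableSet_lt measurable_const (by unfold gad; fun_prop)
    exact (measurable_fst hS).inter hm1
  rw [Measure.volume_eq_prod, Measure.prod_apply hm]
  have hm2 : MeasurableSet {x | x ∈ S ∧ 0 < f x ∧ 0 < g x} :=
    hS.inter ((measurableSet_lt measurable_const hf).inter (measurableSet_lt measurable_const hg))
  rw [← lintegral_indicator_one hm2]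
  apply lintegral_congr
  intro x
  by_cases hx : x ∈ S
  · have h4 : Prod.mk x ⁻¹' {p : (Fin n → ℝ) × (Fin 3 → ℝ) | p.1 ∈ S ∧
      0 < gad (f p.1) (g p.1) (p.2 0) (p.2 1) (p.2 2)} =
        {z : Fin 3 → ℝ | 0 < gad (f x) (g x) (z 0) (z 1) (z 2)} := by
      ext z
      simp [hx]
    rw [h4, gad_vol3]
    simp [indicator, hx]
  · have h4 : Prod.mk x ⁻¹' {p : (Fin n → ℝ) × (Fin 3 → ℝ) | p.1 ∈ S ∧
      0 < gad (f p.1) (g p.1) (p.2 0) (p.2 1) (p.2 2)} = ∅ := by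
      ext z
      simp [hx]
    rw [h4]
    simp [indicator, hx]

/-- the restriction of a point to the first `n` coordinates -/
def base {n : ℕ} (k : ℕ) (y : Fin (n + k) → ℝ) : Fin n → ℝ := fun i => y (i.castAdd k)

theorem meas_base {n k : ℕ} : Measurable (base k : (Fin (n + k) → ℝ) → (Fin n → ℝ)) := by
  unfold base
  fun_prop

theorem fin1 (S : Set ℝ) : volume {z : Fin 1 → ℝ | z 0 ∈ S} = volume S := vol1 (fun w => w ∈ S)

theorem subgraph {n : ℕ} (h : (Fin n → ℝ) → ℝ) (S : Set (Fin n → ℝ)) (hS : MeasurableSet S)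
    (I : ℝ → Set ℝ) (hI : MeasurableSet {p : (Fin n → ℝ) × (Fin 1 → ℝ) | p.2 0 ∈ I (h p.1)})
    (g : ℝ → ℝ) (hg : ∀ c, volume (I c) = ENNReal.ofReal (g c)) :
    volume {y : Fin (n + 1) → ℝ | base 1 y ∈ S ∧ y (Fin.natAdd n 0) ∈ I (h (base 1 y))} =
      ∫⁻ x in S, ENNReal.ofReal (g (h x)) := by
  have h1 := TH960.PE.eqv_mp n 1
  rw [← h1.measure_preimage_equiv]
  have h2 : ∀ p : (Fin n → ℝ) × (Fin 1 → ℝ), base 1 (TH960.PE.eqv n 1 p) = p.1 := by
    intro p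
    funext i
    exact TH960.PE.eqv_castAdd n 1 p i
  have h3 : TH960.PE.eqv n 1 ⁻¹' {y : Fin (n + 1) → ℝ | base 1 y ∈ S ∧ y (Fin.natAdd n 0) ∈ I (h (base 1 y))} =
      {p | p.1 ∈ S ∧ p.2 0 ∈ I (h p.1)} := by
    ext p
    simp only [mem_preimage, mem_ofPred_eq, h2, TH960.PE.eqv_natAdd]
  rw [h3]
  have hm : MeasurableSet {p : (Fin n → ℝ) × (Fin 1 → ℝ) | p.1 ∈ S ∧ p.2 0 ∈ I (h p.1)} :=
    (measurable_fst hS).inter hI
  rw [Measure.volume_eq_prod, Measure.prod_apply hm, ← lintegral_indicator hS]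
  apply lintegral_congr
  intro x
  by_cases hx : x ∈ S
  · have h4 : Prod.mk x ⁻¹' {p : (Fin n → ℝ) × (Fin 1 → ℝ) | p.1 ∈ S ∧ p.2 0 ∈ I (h p.1)} =
        {z : Fin 1 → ℝ | z 0 ∈ I (h x)} := by
      ext z
      simp [hx]
    rw [h4, fin1, hg, indicator_of_mem hx]
  · have h4 : Prod.mk x ⁻¹' {p : (Fin n → ℝ) × (Fin 1 → ℝ) | p.1 ∈ S ∧ p.2 0 ∈ I (h p.1)} = ∅ := by
      ext z
      simp [hx]
    rw [h4, indicator_of_notMem hx, measure_empty]

end Pool.Agent.H839.PV
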