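import Mathlib

/-!
# A polynomial in five variables with `vol {(u, v, w) : gad a b u v w > 0} = 1` if `a, b > 0` and `= 0` otherwise
-/

set_option autoImplicit false

namespace Pool.Agent.H839.PV

open MeasureTheory Set

/-- The polynomial which merges two inequalities. -/
noncomputable def gad (a b u v w : ℝ) : ℝ :=
  225 * (1 - (u ^ 2 * a - 1) ^ 2 - (v ^ 2 * b - 1) ^ 2) * (u * a * (u ^ 2 * a - 1)) ^ 2 *
    (v * b * (v ^ 2 * b - 1)) ^ 2 - 64 * w ^ 2

theorem slice (K : ℝ) : volume {w : ℝ | 0 < K - 64 * w ^ 2} = ENNReal.ofReal (√K / 4) := by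
  have h : {w : ℝ | 0 < K - 64 * w ^ 2} = Ioo (-(√K / 8)) (√K / 8) := by
    ext w
    simp only [mem_ofPred_eq, mem_Ioo]
    have h1 : 0 < K - 64 * w ^ 2 ↔ (8 * w) ^ 2 < K := by
      constructor <;> intro h <;> nlinarith
    rw [h1, Real.sq_lt]
    constructor
    · rintro ⟨h2, h3⟩
      constructor <;> linarith
    · rintro ⟨h2, h3⟩
      constructor <;> linarith
  rw [h, Real.volume_Ioo]
  congr 1
  ring

theorem cov (a c : ℝ) (ha : 0 < a) (h : ℝ → ENNReal) :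
    ∫⁻ u in Ioi (0 : ℝ), ENNReal.ofReal (2 * u * a) * h (u ^ 2 * a + c) = ∫⁻ t in Ioi c, h t := by
  have himg : (fun u : ℝ => u ^ 2 * a + c) '' Ioi 0 = Ioi c := by
    ext t
    simp only [mem_image, mem_Ioi]
    constructor
    · rintro ⟨u, hu, rfl⟩
      have : 0 < u ^ 2 * a := by positivity
      linarith
    · intro ht
      have h1 : 0 < (t - c) / a := div_pos (by linarith) ha
      refine ⟨√((t - c) / a), Real.sqrt_pos.2 h1, ?_⟩
      rw [Real.sq_sqrt h1.le]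
      field_simp
      ring
  have hinj : InjOn (fun u : ℝ => u ^ 2 * a + c) (Ioi 0) := by
    intro u hu v hv huv
    simp only [mem_Ioi] at hu hv
    have h1 : u ^ 2 * a = v ^ 2 * a := by simpa using huv
    have h2 : u ^ 2 = v ^ 2 := mul_right_cancel₀ ha.ne' h1
    nlinarith [sq_nonneg (u - v), sq_nonneg (u + v)]
  have hd : ∀ u ∈ Ioi (0 : ℝ), HasDerivWithinAt (fun u : ℝ => u ^ 2 * a + c) (2 * u * a) (Ioi 0) u := by
    intro u _
    have := ((hasDerivAt_pow 2 u).mul_const a).add_const c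
    simp only [Nat.cast_ofNat, Nat.add_one_sub_one, pow_one] at this
    exact this.hasDerivWithinAt
  have key := lintegral_image_eq_lintegral_abs_deriv_mul measurableSet_Ioi hd hinj h
  rw [himg] at key
  rw [key]
  apply setLIntegral_congr_fun measurableSet_Ioi
  intro u hu
  simp only [mem_Ioi] at hu
  simp only
  rw [abs_of_pos (by positivity)]

theorem even_lintegral (g : ℝ → ENNReal) (hg : ∀ x, g (-x) = g x) :
    ∫⁻ x, g x = 2 * ∫⁻ x in Ioi (0 : ℝ), g x := by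
  rw [← lintegral_add_compl g (measurableSet_Ioi (a := (0 : ℝ)))]
  have h1 : (Ioi (0 : ℝ))ᶜ = Iic 0 := by ext; simp
  rw [h1, setLIntegral_congr Iio_ae_eq_Iic.symm]
  have h2 : ∫⁻ x in Iio (0 : ℝ), g x = ∫⁻ x in Ioi (0 : ℝ), g x := by
    have h3 := (Measure.measurePreserving_neg (volume : Measure ℝ)).setLIntegral_comp_preimage_emb
      (MeasurableEquiv.neg ℝ).measurableEmbedding g (Iio 0)
    rw [← h3]
    have h4 : (Neg.neg ⁻¹' (Iio (0 : ℝ)) : Set ℝ) = Ioi 0 := by ext; simp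
    rw [h4]
    apply setLIntegral_congr_fun measurableSet_Ioi
    intro x _
    exact hg x
  rw [h2, two_mul]

theorem powint (ρ s : ℝ) (hs : 0 < s) :
    ∫⁻ t in Ioi (0 : ℝ), ENNReal.ofReal ((max (ρ - t) 0) ^ s) =
      ENNReal.ofReal ((max ρ 0) ^ (s + 1) / (s + 1)) := by
  rcases le_or_gt ρ 0 with hρ | hρ
  · rw [max_eq_right hρ, Real.zero_rpow (by linarith), zero_div, ENNReal.ofReal_zero]
    rw [setLIntegral_congr_fun (g := fun _ => 0) measurableSet_Ioi, lintegral_zero]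
    intro t ht
    simp only [mem_Ioi] at ht
    simp only
    rw [max_eq_right (by linarith), Real.zero_rpow hs.ne', ENNReal.ofReal_zero]
  · rw [max_eq_left hρ.le]
    have h1 : Ioi (0 : ℝ) = Ioc 0 ρ ∪ Ioi ρ := (Ioc_union_Ioi_eq_Ioi hρ.le).symm
    rw [h1, lintegral_union measurableSet_Ioi (by
      rw [Set.disjoint_left]; intro x hx hx'; exact absurd hx.2 (not_le.2 hx'))]
    have h2 : ∫⁻ t in Ioi ρ, ENNReal.ofReal ((max (ρ - t) 0) ^ s) = 0 := by
      rw [setLIntegral_congr_fun (g := fun _ => 0) measurableSet_Ioi, lintegral_zero]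
      intro t ht
      simp only [mem_Ioi] at ht
      simp only
      rw [max_eq_right (by linarith), Real.zero_rpow hs.ne', ENNReal.ofReal_zero]
    rw [h2, add_zero]
    have h3 : ∫⁻ t in Ioc 0 ρ, ENNReal.ofReal ((max (ρ - t) 0) ^ s) =
        ∫⁻ t in Ioc 0 ρ, ENNReal.ofReal ((ρ - t) ^ s) := by
      apply setLIntegral_congr_fun measurableSet_Ioc
      intro t ht
      simp only
      rw [max_eq_left (by linarith [ht.2])]
    have hc : Continuous (fun t : ℝ => (ρ - t) ^ s) :=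
      (continuous_const.sub continuous_id).rpow_const (fun _ => Or.inr hs.le)
    rw [h3, ← ofReal_integral_eq_lintegral_ofReal]
    · congr 1
      rw [← intervalIntegral.integral_of_le hρ.le]
      rw [intervalIntegral.integral_comp_sub_left (fun x => x ^ s) ρ]
      simp only [sub_self, sub_zero]
      rw [integral_rpow (Or.inl (by linarith))]
      rw [Real.zero_rpow (by linarith), sub_zero]
    · exact hc.continuousOn.integrableOn_Icc.mono_set Ioc_subset_Icc_self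
    · rw [Filter.EventuallyLE, ae_restrict_iff' measurableSet_Ioc]
      filter_upwards with t ht
      exact Real.rpow_nonneg (by linarith [ht.2]) _

theorem step (a ρ s : ℝ) (ha : 0 < a) (hρ : ρ ≤ 1) (hs : 0 < s) :
    ∫⁻ u : ℝ, ENNReal.ofReal (|u * a * (u ^ 2 * a - 1)| * (max (ρ - (u ^ 2 * a - 1) ^ 2) 0) ^ s) =
      ENNReal.ofReal ((max ρ 0) ^ (s + 1) / (s + 1)) := by
  set φ : ℝ → ENNReal := fun β => ENNReal.ofReal (|β| / 2 * (max (ρ - β ^ 2) 0) ^ s) with hφ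
  rw [even_lintegral _ (by
    intro x
    have h1 : |(-x) * a * ((-x) ^ 2 * a - 1)| = |x * a * (x ^ 2 * a - 1)| := by
      rw [show (-x) * a * ((-x) ^ 2 * a - 1) = -(x * a * (x ^ 2 * a - 1)) by ring, abs_neg]
    rw [h1, neg_sq])]
  have h1 : ∫⁻ u in Ioi (0 : ℝ), ENNReal.ofReal (|u * a * (u ^ 2 * a - 1)| *
      (max (ρ - (u ^ 2 * a - 1) ^ 2) 0) ^ s) = ∫⁻ β in Ioi (-1 : ℝ), φ β := by
    rw [← cov a (-1) ha φ]
    apply setLIntegral_congr_fun measurableSet_Ioi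
    intro u hu
    simp only [mem_Ioi] at hu
    simp only [hφ]
    rw [← ENNReal.ofReal_mul (by positivity), ← sub_eq_add_neg, abs_mul, abs_mul, abs_of_pos hu, abs_of_pos ha]
    congr 1
    ring
  have h2 : ∫⁻ β in Ioi (-1 : ℝ), φ β = ∫⁻ β, φ β := by
    have h3 : ∫⁻ β in (Ioi (-1 : ℝ))ᶜ, φ β = 0 := by
      rw [setLIntegral_congr_fun (g := fun _ => 0) measurableSet_Ioi.compl, lintegral_zero]
      intro t ht
      simp only [mem_compl_iff, mem_Ioi, not_lt] at ht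
      simp only [hφ]
      rw [max_eq_right (by nlinarith), Real.zero_rpow hs.ne', mul_zero, ENNReal.ofReal_zero]
    have h4 := lintegral_add_compl (μ := volume) φ (measurableSet_Ioi (a := (-1 : ℝ)))
    rw [h3, add_zero] at h4
    exact h4
  rw [h1, h2, even_lintegral φ (by intro x; simp only [hφ, abs_neg, neg_sq])]
  have h4 : ∫⁻ β in Ioi (0 : ℝ), φ β =
      ∫⁻ t in Ioi (0 : ℝ), ENNReal.ofReal (1 / 4) * ENNReal.ofReal ((max (ρ - t) 0) ^ s) := by
    rw [← cov 1 0 one_pos (fun t => ENNReal.ofReal (1 / 4) * ENNReal.ofReal ((max (ρ - t) 0) ^ s))]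
    apply setLIntegral_congr_fun measurableSet_Ioi
    intro u hu
    simp only [mem_Ioi] at hu
    simp only [hφ]
    rw [← ENNReal.ofReal_mul (by norm_num), ← ENNReal.ofReal_mul (by positivity), abs_of_pos hu, mul_one, mul_one,
      add_zero]
    congr 1
    ring
  rw [h4, lintegral_const_mul' _ _ ENNReal.ofReal_ne_top, powint ρ s hs, ← mul_assoc, ← mul_assoc]
  have h5 : (2 : ENNReal) * 2 * ENNReal.ofReal (1 / 4) = 1 := by
    rw [show (2 : ENNReal) = ENNReal.ofReal 2 by simp, ← ENNReal.ofReal_mul (by norm_num),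
      ← ENNReal.ofReal_mul (by norm_num)]
    norm_num
  rw [h5, one_mul]

theorem step0 (a ρ s : ℝ) (ha : a ≤ 0) (hρ : ρ ≤ 1) (hs : 0 < s) :
    ∫⁻ u : ℝ, ENNReal.ofReal (|u * a * (u ^ 2 * a - 1)| * (max (ρ - (u ^ 2 * a - 1) ^ 2) 0) ^ s) = 0 := by
  rw [lintegral_congr (g := fun _ => 0), lintegral_zero]
  intro u
  have h1 : u ^ 2 * a ≤ 0 := mul_nonpos_of_nonneg_of_nonpos (sq_nonneg u) ha
  rw [max_eq_right (by nlinarith), Real.zero_rpow hs.ne', mul_zero, ENNReal.ofReal_zero]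

theorem sqrt_gad (a b u v : ℝ) :
    √(225 * (1 - (u ^ 2 * a - 1) ^ 2 - (v ^ 2 * b - 1) ^ 2) * (u * a * (u ^ 2 * a - 1)) ^ 2 *
      (v * b * (v ^ 2 * b - 1)) ^ 2) / 4 = (15 / 4 * |u * a * (u ^ 2 * a - 1)|) *
      (|v * b * (v ^ 2 * b - 1)| * (max (1 - (u ^ 2 * a - 1) ^ 2 - (v ^ 2 * b - 1) ^ 2) 0) ^ (1 / 2 : ℝ)) := by
  rw [← Real.sqrt_eq_rpow]
  have h1 : √(max (1 - (u ^ 2 * a - 1) ^ 2 - (v ^ 2 * b - 1) ^ 2) 0) =
      √(1 - (u ^ 2 * a - 1) ^ 2 - (v ^ 2 * b - 1) ^ 2) := by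
    rcases le_total (1 - (u ^ 2 * a - 1) ^ 2 - (v ^ 2 * b - 1) ^ 2) 0 with h | h
    · rw [max_eq_right h, Real.sqrt_zero, Real.sqrt_eq_zero_of_nonpos h]
    · rw [max_eq_left h]
  rw [h1, Real.sqrt_mul' _ (sq_nonneg _), Real.sqrt_mul' _ (sq_nonneg _), Real.sqrt_sq_eq_abs, Real.sqrt_sq_eq_abs,
    Real.sqrt_mul (by norm_num), show (225 : ℝ) = 15 ^ 2 by norm_num, Real.sqrt_sq (by norm_num)]
  ring

theorem gad_vol (a b : ℝ) : ∫⁻ u : ℝ, ∫⁻ v : ℝ, volume {w : ℝ | 0 < gad a b u v w} =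
    if 0 < a ∧ 0 < b then 1 else 0 := by
  have h0 : ∀ u v : ℝ, volume {w : ℝ | 0 < gad a b u v w} =
      ENNReal.ofReal (15 / 4 * |u * a * (u ^ 2 * a - 1)|) *
      ENNReal.ofReal (|v * b * (v ^ 2 * b - 1)| *
        (max ((1 - (u ^ 2 * a - 1) ^ 2) - (v ^ 2 * b - 1) ^ 2) 0) ^ (1 / 2 : ℝ)) := by
    intro u v
    unfold gad
    rw [slice, sqrt_gad, ENNReal.ofReal_mul (by positivity)]
  simp only [h0]
  have h1 : ∀ u : ℝ, (∫⁻ v : ℝ, ENNReal.ofReal (15 / 4 * |u * a * (u ^ 2 * a - 1)|) *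
      ENNReal.ofReal (|v * b * (v ^ 2 * b - 1)| *
        (max ((1 - (u ^ 2 * a - 1) ^ 2) - (v ^ 2 * b - 1) ^ 2) 0) ^ (1 / 2 : ℝ))) =
      ENNReal.ofReal (15 / 4 * |u * a * (u ^ 2 * a - 1)|) *
      ∫⁻ v : ℝ, ENNReal.ofReal (|v * b * (v ^ 2 * b - 1)| *
        (max ((1 - (u ^ 2 * a - 1) ^ 2) - (v ^ 2 * b - 1) ^ 2) 0) ^ (1 / 2 : ℝ)) := by
    intro u
    rw [lintegral_const_mul' _ _ ENNReal.ofReal_ne_top]
  simp only [h1]
  rcases le_or_gt b 0 with hb | hb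
  · rw [if_neg (by intro h; linarith [h.2])]
    rw [lintegral_congr (g := fun _ => 0), lintegral_zero]
    intro u
    rw [step0 b _ (1 / 2) hb (by nlinarith [sq_nonneg (u ^ 2 * a - 1)]) (by norm_num), mul_zero]
  have h2 : ∀ u : ℝ, ENNReal.ofReal (15 / 4 * |u * a * (u ^ 2 * a - 1)|) *
      ∫⁻ v : ℝ, ENNReal.ofReal (|v * b * (v ^ 2 * b - 1)| *
        (max ((1 - (u ^ 2 * a - 1) ^ 2) - (v ^ 2 * b - 1) ^ 2) 0) ^ (1 / 2 : ℝ)) =
      ENNReal.ofReal (5 / 2) * ENNReal.ofReal (|u * a * (u ^ 2 * a - 1)| *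
        (max (1 - (u ^ 2 * a - 1) ^ 2) 0) ^ (3 / 2 : ℝ)) := by
    intro u
    rw [step b _ (1 / 2) hb (by nlinarith [sq_nonneg (u ^ 2 * a - 1)]) (by norm_num),
      ← ENNReal.ofReal_mul (by positivity), ← ENNReal.ofReal_mul (by norm_num)]
    congr 1
    norm_num
    ring
  simp only [h2]
  rw [lintegral_const_mul' _ _ ENNReal.ofReal_ne_top]
  rcases le_or_gt a 0 with ha | ha
  · rw [if_neg (by intro h; linarith [h.1]), step0 a 1 (3 / 2) ha le_rfl (by norm_num), mul_zero]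
  · rw [if_pos ⟨ha, hb⟩, step a 1 (3 / 2) ha le_rfl (by norm_num), ← ENNReal.ofReal_mul (by norm_num)]
    norm_num

theorem gad_pos (a b u v w : ℝ) (h : 0 < gad a b u v w) : 0 < a ∧ 0 < b := by
  unfold gad at h
  have hρ : 0 < 1 - (u ^ 2 * a - 1) ^ 2 - (v ^ 2 * b - 1) ^ 2 := by
    by_contra hcon
    push Not at hcon
    have h1 : 225 * (1 - (u ^ 2 * a - 1) ^ 2 - (v ^ 2 * b - 1) ^ 2) * (u * a * (u ^ 2 * a - 1)) ^ 2 *
      (v * b * (v ^ 2 * b - 1)) ^ 2 ≤ 0 :=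
      mul_nonpos_of_nonpos_of_nonneg (mul_nonpos_of_nonpos_of_nonneg (by linarith) (sq_nonneg _)) (sq_nonneg _)
    nlinarith [sq_nonneg w]
  constructor
  · by_contra hcon
    push Not at hcon
    have h1 : u ^ 2 * a ≤ 0 := mul_nonpos_of_nonneg_of_nonpos (sq_nonneg u) hcon
    nlinarith [sq_nonneg (v ^ 2 * b - 1)]
  · by_contra hcon
    push Not at hcon
    have h1 : v ^ 2 * b ≤ 0 := mul_nonpos_of_nonneg_of_nonpos (sq_nonneg v) hcon
    nlinarith [sq_nonneg (u ^ 2 * a - 1)]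

end Pool.Agent.H839.PV
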