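import Pool.Agent.H839.PV.Arith
import Pool.Agent.H839.PV.Fib

/-!
# Merging a list of inequalities
-/

set_option autoImplicit false

namespace Pool.Agent.H839.PV

open TH960.PE MeasureTheory

/-- the merged polynomial, with three new variables -/
def mergeP (n : ℕ) (f g : Poly) : Poly :=
  psub (pmul (pmul (pmul (cst 225) (psub (psub (cst 1) (sq (psub (pmul (sq (var n)) f) (cst 1))))
      (sq (psub (pmul (sq (var (n + 1))) g) (cst 1)))))
      (sq (pmul (pmul (var n) f) (psub (pmul (sq (var n)) f) (cst 1)))))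
      (sq (pmul (pmul (var (n + 1)) g) (psub (pmul (sq (var (n + 1))) g) (cst 1)))))
    (pmul (cst 64) (sq (var (n + 2))))

theorem pev_mergeP (n : ℕ) (f g : Poly) (X : ℕ → ℝ) :
    pev X (mergeP n f g) = gad (pev X f) (pev X g) (X n) (X (n + 1)) (X (n + 2)) := by
  simp only [mergeP, gad, pev_psub, pev_pmul, pev_sq, pev_var, pev_cst]
  norm_num

theorem isPoly_mergeP {n : ℕ} {f g : Poly} (hf : IsPoly n f) (hg : IsPoly n g) : IsPoly (n + 3) (mergeP n f g) := by
  have hf' : IsPoly (n + 3) f := isPoly_le (by omega) hf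
  have hg' : IsPoly (n + 3) g := isPoly_le (by omega) hg
  have h0 : IsPoly (n + 3) (var n) := isPoly_var (by omega)
  have h1 : IsPoly (n + 3) (var (n + 1)) := isPoly_var (by omega)
  have h2 : IsPoly (n + 3) (var (n + 2)) := isPoly_var (by omega)
  have hc : ∀ a, IsPoly (n + 3) (cst a) := fun a => isPoly_cst _ a
  have hX := isPoly_psub (isPoly_pmul (isPoly_sq h0) hf') (hc 1)
  have hY := isPoly_psub (isPoly_pmul (isPoly_sq h1) hg') (hc 1)
  exact isPoly_psub (isPoly_pmul (isPoly_pmul (isPoly_pmul (hc 225) (isPoly_psub (isPoly_psub (hc 1) (isPoly_sq hX))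
    (isPoly_sq hY))) (isPoly_sq (isPoly_pmul (isPoly_pmul h0 hf') hX)))
    (isPoly_sq (isPoly_pmul (isPoly_pmul h1 hg') hY))) (isPoly_pmul (hc 64) (isPoly_sq h2))

theorem prim_mergeP : Primrec (fun p : ℕ × Poly × Poly => mergeP p.1 p.2.1 p.2.2) := by
  unfold mergeP
  have n0 : Primrec (fun p : ℕ × Poly × Poly => p.1) := Primrec.fst
  have n1 : Primrec (fun p : ℕ × Poly × Poly => p.1 + 1) := Primrec.succ.comp n0
  have n2 : Primrec (fun p : ℕ × Poly × Poly => p.1 + 2) := Primrec.succ.comp n1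
  have f0 : Primrec (fun p : ℕ × Poly × Poly => p.2.1) := Primrec.fst.comp Primrec.snd
  have g0 : Primrec (fun p : ℕ × Poly × Poly => p.2.2) := Primrec.snd.comp Primrec.snd
  have v : ∀ {h : ℕ × Poly × Poly → ℕ}, Primrec h → Primrec (fun p => var (h p)) := fun hh => prim_var.comp hh
  have c : ∀ a, Primrec (fun _ : ℕ × Poly × Poly => cst a) := fun a => Primrec.const _
  have m : ∀ {f g : ℕ × Poly × Poly → Poly}, Primrec f → Primrec g → Primrec (fun p => pmul (f p) (g p)) :=
    fun hf hg => prim_pmul.comp hf hg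
  have s : ∀ {f g : ℕ × Poly × Poly → Poly}, Primrec f → Primrec g → Primrec (fun p => psub (f p) (g p)) :=
    fun hf hg => prim_psub.comp hf hg
  have q : ∀ {f : ℕ × Poly × Poly → Poly}, Primrec f → Primrec (fun p => sq (f p)) := fun hf => prim_sq.comp hf
  have hX := s (m (q (v n0)) f0) (c 1)
  have hY := s (m (q (v n1)) g0) (c 1)
  exact s (m (m (m (c 225) (s (s (c 1) (q hX)) (q hY))) (q (m (m (v n0) f0) hX))) (q (m (m (v n1) g0) hY)))
    (m (c 64) (q (v n2)))

/-- volume of the set of the points of `ℝ ^ n` with the property `p` -/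
noncomputable def vol (n : ℕ) (p : (ℕ → ℝ) → Prop) : ENNReal := volume {x : Fin n → ℝ | p (ext x)}

/-- a measurable property which depends on the first `n` coordinates only -/
structure Loc (n : ℕ) (p : (ℕ → ℝ) → Prop) : Prop where
  congr : ∀ X Y : ℕ → ℝ, (∀ i < n, X i = Y i) → (p X ↔ p Y)
  meas : MeasurableSet {x : Fin n → ℝ | p (ext x)}

theorem ext_of_lt {n : ℕ} (x : Fin n → ℝ) {i : ℕ} (h : i < n) : ext x i = x ⟨i, h⟩ := by
  simp [ext, h]

theorem meas_mev {n : ℕ} (e : List ℕ) : Measurable (fun x : Fin n → ℝ => mev (ext x) e) := by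
  have h : (fun x : Fin n → ℝ => mev (ext x) e) = fun x => ∏ i ∈ Finset.range e.length, (ext x i) ^ e.getD i 0 := by
    funext x
    exact mev_getD e _ _ le_rfl
  rw [h]
  refine Finset.measurable_fun_prod _ fun i _ => Measurable.pow_const ?_ _
  by_cases hi : i < n
  · simp only [ext, hi, dif_pos]
    exact measurable_pi_apply _
  · simp only [ext, hi, dif_neg, not_false_iff]
    exact measurable_const

theorem meas_pev {n : ℕ} (P : Poly) : Measurable (fun x : Fin n → ℝ => pev (ext x) P) := by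
  induction P with
  | nil => simp only [pev_nil]; exact measurable_const
  | cons m P ih =>
    simp only [pev_cons]
    exact (measurable_const.mul (meas_mev _)).add ih

theorem loc_pos {n : ℕ} {P : Poly} (hP : IsPoly n P) : Loc n (fun X => 0 < pev X P) where
  congr X Y h := by rw [pev_congr n P hP X Y h]
  meas := measurableSet_lt measurable_const (meas_pev P)

theorem Loc.and {n : ℕ} {p q : (ℕ → ℝ) → Prop} (hp : Loc n p) (hq : Loc n q) : Loc n (fun X => p X ∧ q X) where
  congr X Y h := and_congr (hp.congr X Y h) (hq.congr X Y h)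
  meas := hp.meas.inter hq.meas

theorem Loc.top (n : ℕ) : Loc n (fun _ => True) where
  congr _ _ _ := Iff.rfl
  meas := by simp

theorem Loc.all {n : ℕ} {L : List Poly} (h : ∀ A ∈ L, IsPoly n A) : Loc n (fun X => ∀ A ∈ L, 0 < pev X A) := by
  induction L with
  | nil => simpa using Loc.top n
  | cons A L ih =>
    simp only [List.forall_mem_cons]
    exact (loc_pos (h A (by simp))).and (ih (fun B hB => h B (by simp [hB])))

theorem vol_congr {n : ℕ} {p q : (ℕ → ℝ) → Prop} (h : ∀ X, p X ↔ q X) : vol n p = vol n q := by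
  unfold vol
  congr 1
  ext x
  exact h _

theorem merge_vol {n : ℕ} {f g : Poly} (hf : IsPoly n f) (hg : IsPoly n g) {q : (ℕ → ℝ) → Prop} (hq : Loc n q) :
    vol (n + 3) (fun X => q X ∧ 0 < pev X (mergeP n f g)) = vol n (fun X => q X ∧ 0 < pev X f ∧ 0 < pev X g) := by
  have h1 := merge (n := n) (fun x => pev (ext x) f) (fun x => pev (ext x) g) (meas_pev f) (meas_pev g)
    {x | q (ext x)} hq.meas
  unfold vol
  rw [← show volume {x : Fin n → ℝ | x ∈ {x | q (ext x)} ∧ 0 < pev (ext x) f ∧ 0 < pev (ext x) g} =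
    volume {x : Fin n → ℝ | q (ext x) ∧ 0 < pev (ext x) f ∧ 0 < pev (ext x) g} from rfl, ← h1]
  congr 1
  ext y
  have e : ∀ i < n, ext y i = ext (fun i : Fin n => y (i.castAdd 3)) i := by
    intro i hi
    rw [ext_of_lt _ hi, ext_of_lt y (by omega : i < n + 3)]
    rfl
  simp only [Set.mem_ofPred_eq]
  rw [hq.congr _ _ e, pev_mergeP, pev_congr n f hf _ _ e, pev_congr n g hg _ _ e,
    ext_of_lt y (by omega : n < n + 3), ext_of_lt y (by omega : n + 1 < n + 3), ext_of_lt y (by omega : n + 2 < n + 3)]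
  rfl

/-- one step -/
def mstep (s : ℕ × Poly) (A : Poly) : ℕ × Poly := (s.1 + 3, mergeP s.1 s.2 A)

/-- merging a list of inequalities in `n` variables -/
def mergeL (n : ℕ) (L : List Poly) : ℕ × Poly := L.foldl mstep (n, cst 1)

theorem foldl_fst (L : List Poly) : ∀ s : ℕ × Poly, (L.foldl mstep s).1 = s.1 + 3 * L.length := by
  induction L with
  | nil => intro s; simp
  | cons A L ih => intro s; rw [List.foldl_cons, ih, mstep, List.length_cons]; ring

theorem foldl_isPoly (n : ℕ) (L : List Poly) (hL : ∀ A ∈ L, IsPoly n A) : ∀ s : ℕ × Poly, n ≤ s.1 → IsPoly s.1 s.2 →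
    IsPoly (L.foldl mstep s).1 (L.foldl mstep s).2 := by
  induction L with
  | nil => intro s _ h; exact h
  | cons A L ih =>
    intro s hs h
    rw [List.foldl_cons]
    exact ih (fun B hB => hL B (by simp [hB])) _ (by simp only [mstep]; omega)
      (isPoly_mergeP h (isPoly_le hs (hL A (by simp))))

theorem foldl_pos (L : List Poly) : ∀ (s : ℕ × Poly) (X : ℕ → ℝ), 0 < pev X (L.foldl mstep s).2 →
    0 < pev X s.2 ∧ ∀ A ∈ L, 0 < pev X A := by
  induction L with
  | nil => intro s X h; exact ⟨h, by simp⟩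
  | cons A L ih =>
    intro s X h
    rw [List.foldl_cons] at h
    obtain ⟨h1, h2⟩ := ih _ X h
    simp only [mstep, pev_mergeP] at h1
    obtain ⟨h3, h4⟩ := gad_pos _ _ _ _ _ h1
    refine ⟨h3, ?_⟩
    simp only [List.forall_mem_cons]
    exact ⟨h4, h2⟩

theorem foldl_ne (L : List Poly) : ∀ s : ℕ × Poly, (∃ X : ℕ → ℝ, pev X s.2 ≠ 0) →
    ∃ X : ℕ → ℝ, pev X (L.foldl mstep s).2 ≠ 0 := by
  induction L with
  | nil => intro s h; exact h
  | cons A L ih =>
    intro s _
    rw [List.foldl_cons]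
    refine ih _ ⟨fun i => if i = s.1 + 2 then 1 else 0, ?_⟩
    simp only [mstep, pev_mergeP, gad]
    norm_num

theorem foldl_vol (n : ℕ) (L : List Poly) (hL : ∀ A ∈ L, IsPoly n A) : ∀ s : ℕ × Poly, n ≤ s.1 → IsPoly s.1 s.2 →
    vol (L.foldl mstep s).1 (fun X => 0 < pev X (L.foldl mstep s).2) =
      vol s.1 (fun X => (∀ A ∈ L, 0 < pev X A) ∧ 0 < pev X s.2) := by
  induction L with
  | nil =>
    intro s _ _
    exact vol_congr fun X => by simp
  | cons A L ih =>
    intro s hs h
    have hA : IsPoly s.1 A := isPoly_le hs (hL A (by simp))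
    have hL' : ∀ B ∈ L, IsPoly n B := fun B hB => hL B (by simp [hB])
    rw [List.foldl_cons, ih hL' _ (by simp only [mstep]; omega) (isPoly_mergeP h hA)]
    simp only [mstep]
    rw [merge_vol h hA (Loc.all fun B hB => isPoly_le hs (hL' B hB))]
    refine vol_congr fun X => ?_
    simp only [List.forall_mem_cons]
    tauto

theorem mergeL_fst (n : ℕ) (L : List Poly) : (mergeL n L).1 = n + 3 * L.length := foldl_fst L _

theorem mergeL_isPoly {n : ℕ} {L : List Poly} (hL : ∀ A ∈ L, IsPoly n A) : IsPoly (mergeL n L).1 (mergeL n L).2 :=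
  foldl_isPoly n L hL _ le_rfl (isPoly_cst _ _)

theorem mergeL_pos {n : ℕ} {L : List Poly} {X : ℕ → ℝ} (h : 0 < pev X (mergeL n L).2) : ∀ A ∈ L, 0 < pev X A :=
  (foldl_pos L _ X h).2

theorem mergeL_ne (n : ℕ) (L : List Poly) : ∃ X : ℕ → ℝ, pev X (mergeL n L).2 ≠ 0 :=
  foldl_ne L _ ⟨fun _ => 0, by simp [pev_cst]⟩

theorem mergeL_vol {n : ℕ} {L : List Poly} (hL : ∀ A ∈ L, IsPoly n A) :
    vol (mergeL n L).1 (fun X => 0 < pev X (mergeL n L).2) = vol n (fun X => ∀ A ∈ L, 0 < pev X A) := by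
  rw [mergeL, foldl_vol n L hL _ le_rfl (isPoly_cst _ _)]
  exact vol_congr fun X => by simp [pev_cst]

theorem prim_mstep : Primrec₂ mstep := by
  have h0 : Primrec (fun p : (ℕ × Poly) × Poly => (p.1.1, p.1.2, p.2)) :=
    Primrec.pair (Primrec.fst.comp Primrec.fst) (Primrec.pair (Primrec.snd.comp Primrec.fst) Primrec.snd)
  have h1 : Primrec (fun p : (ℕ × Poly) × Poly => p.1.1 + 3) :=
    Primrec.nat_add.comp (Primrec.fst.comp Primrec.fst) (Primrec.const 3)
  have h2 := prim_mergeP.comp h0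
  exact Primrec.pair h1 h2

theorem prim_mergeL : Primrec₂ mergeL := by
  have h0 : Primrec (fun p : ℕ × List Poly => ((p.1, cst 1) : ℕ × Poly)) :=
    Primrec.pair Primrec.fst (Primrec.const _)
  have h1 : Primrec₂ (fun (_ : ℕ × List Poly) (q : (ℕ × Poly) × Poly) => mstep q.1 q.2) :=
    prim_mstep.comp (Primrec.fst.comp Primrec.snd) (Primrec.snd.comp Primrec.snd)
  have h2 := Primrec.list_foldl (f := fun p : ℕ × List Poly => p.2) Primrec.snd h0 h1
  exact h2

end Pool.Agent.H839.PV
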