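import Pool.Agent.H839.PV.MergeL
import Pool.Graph.R_pool_sql_team_seeded_3997aac3.Q225.Hol.Zero

/-!
# Null sets and the zero test
-/

set_option autoImplicit false

namespace Pool.Agent.H839.PV

open TH960.PE MeasureTheory

/-- the exponents as a finitely supported function -/
noncomputable def ex (n : ℕ) (e : List ℕ) : Fin n →₀ ℕ := Finsupp.equivFunOnFinite.symm (fun i => e.getD i 0)

/-- the polynomial as an element of the polynomial ring -/
noncomputable def mv (n : ℕ) (P : Poly) : MvPolynomial (Fin n) ℝ :=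
  (P.map (fun m => MvPolynomial.monomial (ex n m.2) (cv m.1))).sum

theorem mv_cons (n : ℕ) (m : Mono) (P : Poly) :
    mv n (m :: P) = MvPolynomial.monomial (ex n m.2) (cv m.1) + mv n P := by simp [mv]

theorem eval_mv {n : ℕ} {P : Poly} (hP : IsPoly n P) (x : Fin n → ℝ) :
    MvPolynomial.eval x (mv n P) = pev (ext x) P := by
  induction P with
  | nil => simp [mv, pev_nil]
  | cons m P ih =>
    rw [mv_cons, map_add, ih (fun a ha => hP a (by simp [ha])), pev_cons, MvPolynomial.eval_monomial,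
      mev_getD m.2 n _ (hP m (by simp)), Finsupp.prod_fintype _ _ (fun i => pow_zero _), Finset.prod_range]
    congr 2
    refine Finset.prod_congr rfl fun i _ => ?_
    rw [ext_of_lt x i.2]
    rfl

theorem mv_ne {n : ℕ} {P : Poly} (hP : IsPoly n P) (h : ∃ X : ℕ → ℝ, pev X P ≠ 0) : mv n P ≠ 0 := by
  obtain ⟨X, hX⟩ := h
  intro h0
  apply hX
  have h1 := eval_mv hP (fun i : Fin n => X i)
  rw [h0, map_zero] at h1
  rw [h1]
  apply pev_congr n P hP
  intro i hi
  rw [ext_of_lt _ hi]

theorem ae_ne {n : ℕ} {P : Poly} (hP : IsPoly n P) (h : ∃ X : ℕ → ℝ, pev X P ≠ 0) :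
    ∀ᵐ x : Fin n → ℝ, pev (ext x) P ≠ 0 := by
  have h1 := measure_eq_zero_iff_ae_notMem.1 (Q225.Hol.poly_null _ (mv_ne hP h))
  filter_upwards [h1] with x hx hx0
  apply hx
  show MvPolynomial.eval x (mv n P) = 0
  rw [eval_mv hP, hx0]

/-! ### The zero test -/

/-- the sum of two coefficients -/
def cadd (a b : Coef) : Coef :=
  (a.1 * (b.2.2 + 1) + b.1 * (a.2.2 + 1), a.2.1 * (b.2.2 + 1) + b.2.1 * (a.2.2 + 1), a.2.2 * b.2.2 + a.2.2 + b.2.2)

theorem cv_cadd (a b : Coef) : cv (cadd a b) = cv a + cv b := by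
  unfold cv cadd
  have h1 : (a.2.2 : ℝ) + 1 ≠ 0 := by positivity
  have h2 : (b.2.2 : ℝ) + 1 ≠ 0 := by positivity
  have h3 : ((a.2.2 * b.2.2 + a.2.2 + b.2.2 : ℕ) : ℝ) + 1 =
      ((a.2.2 : ℝ) + 1) * ((b.2.2 : ℝ) + 1) := by push_cast; ring
  rw [h3]
  push_cast
  field_simp
  ring

/-- the sum of the coefficients of a list of monomials -/
def csum (P : Poly) : Coef := P.foldr (fun m s => cadd m.1 s) (0, 0, 0)

theorem cv_csum (P : Poly) : cv (csum P) = (P.map (fun m => cv m.1)).sum := by
  induction P with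
  | nil => simp [csum, cv]
  | cons m P ih =>
    have h : csum (m :: P) = cadd m.1 (csum P) := rfl
    rw [h, cv_cadd, ih, List.map_cons, List.sum_cons]

theorem cv_zero (a : Coef) : cv a = 0 ↔ a.1 = a.2.1 := by
  unfold cv
  have h1 : (a.2.2 : ℝ) + 1 ≠ 0 := by positivity
  rw [div_eq_zero_iff, or_iff_left h1, sub_eq_zero, Nat.cast_inj]

/-- the exponents of the first `n` variables -/
def padn (n : ℕ) (e : List ℕ) : List ℕ := (List.range n).map (fun i => e.getD i 0)

theorem padn_iff {n : ℕ} (e e' : List ℕ) : padn n e = padn n e' ↔ ex n e = ex n e' := by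
  unfold padn ex
  rw [Finsupp.equivFunOnFinite.symm.injective.eq_iff]
  constructor
  · intro h
    funext i
    have h1 := List.map_inj_left.1 h i.1 (List.mem_range.2 i.2)
    exact h1
  · intro h
    apply List.map_inj_left.2
    intro i hi
    exact congrFun h ⟨i, List.mem_range.1 hi⟩

/-- the zero test -/
def IsZ (n : ℕ) (P : Poly) : Prop :=
  ∀ m ∈ P, (csum (P.filter (fun m' => padn n m'.2 = padn n m.2))).1 =
    (csum (P.filter (fun m' => padn n m'.2 = padn n m.2))).2.1

instance (n : ℕ) (P : Poly) : Decidable (IsZ n P) := by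
  unfold IsZ
  infer_instance

theorem coeff_mv (n : ℕ) (P : Poly) (e : List ℕ) :
    MvPolynomial.coeff (ex n e) (mv n P) = cv (csum (P.filter (fun m' => padn n m'.2 = padn n e))) := by
  rw [cv_csum]
  induction P with
  | nil => simp [mv]
  | cons m P ih =>
    rw [mv_cons, MvPolynomial.coeff_add, ih, MvPolynomial.coeff_monomial, List.filter_cons]
    by_cases h : padn n m.2 = padn n e
    · rw [if_pos ((padn_iff _ _).1 h), if_pos (by simpa using h), List.map_cons, List.sum_cons]
    · rw [if_neg (fun h' => h ((padn_iff _ _).2 h')), if_neg (by simpa using h), zero_add]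

theorem isZ_iff (n : ℕ) (P : Poly) : IsZ n P ↔ mv n P = 0 := by
  unfold IsZ
  simp only [← cv_zero, ← coeff_mv]
  constructor
  · intro h
    ext s
    rw [MvPolynomial.coeff_zero]
    by_cases hs : ∃ m ∈ P, ex n m.2 = s
    · obtain ⟨m, hm, rfl⟩ := hs
      exact h m hm
    · have h2 : ∀ Q : Poly, (∀ m ∈ Q, ex n m.2 ≠ s) → MvPolynomial.coeff s (mv n Q) = 0 := by
        intro Q
        induction Q with
        | nil => intro _; simp [mv]
        | cons m Q ih =>
          intro hQ
          rw [mv_cons, MvPolynomial.coeff_add, MvPolynomial.coeff_monomial, if_neg (hQ m (by simp)),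
            ih (fun a ha => hQ a (by simp [ha])), zero_add]
      exact h2 P (fun m hm h' => hs ⟨m, hm, h'⟩)
  · intro h m _
    rw [h, MvPolynomial.coeff_zero]

theorem isZ_pev {n : ℕ} {P : Poly} (hP : IsPoly n P) (h : IsZ n P) (x : Fin n → ℝ) : pev (ext x) P = 0 := by
  rw [← eval_mv hP, (isZ_iff n P).1 h, map_zero]

theorem not_isZ {n : ℕ} {P : Poly} (hP : IsPoly n P) (h : ¬ IsZ n P) : ∃ X : ℕ → ℝ, pev X P ≠ 0 := by
  by_contra hcon
  push Not at hcon
  apply h
  rw [isZ_iff]
  apply MvPolynomial.funext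
  intro x
  rw [eval_mv hP, hcon, map_zero]

theorem prim_cadd : Primrec₂ cadd := by
  have a1 : Primrec (fun p : Coef × Coef => p.1.1) := Primrec.fst.comp Primrec.fst
  have a2 : Primrec (fun p : Coef × Coef => p.1.2.1) := Primrec.fst.comp (Primrec.snd.comp Primrec.fst)
  have a3 : Primrec (fun p : Coef × Coef => p.1.2.2) := Primrec.snd.comp (Primrec.snd.comp Primrec.fst)
  have b1 : Primrec (fun p : Coef × Coef => p.2.1) := Primrec.fst.comp Primrec.snd
  have b2 : Primrec (fun p : Coef × Coef => p.2.2.1) := Primrec.fst.comp (Primrec.snd.comp Primrec.snd)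
  have b3 : Primrec (fun p : Coef × Coef => p.2.2.2) := Primrec.snd.comp (Primrec.snd.comp Primrec.snd)
  have m : ∀ {f g : Coef × Coef → ℕ}, Primrec f → Primrec g → Primrec (fun p => f p * g p) := fun hf hg =>
    Primrec.nat_mul.comp hf hg
  have s : ∀ {f g : Coef × Coef → ℕ}, Primrec f → Primrec g → Primrec (fun p => f p + g p) := fun hf hg =>
    Primrec.nat_add.comp hf hg
  have t : ∀ {f : Coef × Coef → ℕ}, Primrec f → Primrec (fun p => f p + 1) := fun hf => Primrec.succ.comp hf
  exact Primrec.pair (s (m a1 (t b3)) (m b1 (t a3))) (Primrec.pair (s (m a2 (t b3)) (m b2 (t a3)))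
    (s (s (m a3 b3) a3) b3))

theorem prim_csum : Primrec csum := by
  have h1 : Primrec₂ (fun (_ : Poly) (q : Mono × Coef) => cadd q.1.1 q.2) :=
    prim_cadd.comp (Primrec.fst.comp (Primrec.fst.comp Primrec.snd)) (Primrec.snd.comp Primrec.snd)
  have h2 := Primrec.list_foldr (f := fun P : Poly => P) Primrec.id (Primrec.const ((0, 0, 0) : Coef)) h1
  exact h2

theorem prim_padn : Primrec₂ padn := by
  unfold padn
  refine Primrec.list_map (Primrec.list_range.comp Primrec.fst) ?_
  exact (Primrec.list_getD 0).comp (Primrec.snd.comp Primrec.fst) Primrec.snd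

end Pool.Agent.H839.PV
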