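import Pool.Agent.H839.PV.Fib

/-!
# A single polynomial inequality
-/

set_option autoImplicit false

namespace Pool.Agent.H839.PV

open MeasureTheory Set MvPolynomial

/-- the merged polynomial -/
noncomputable def mg {n : ℕ} (f g : MvPolynomial (Fin n) ℤ) : MvPolynomial (Fin (n + 3)) ℤ :=
  C 225 * (1 - (X (Fin.natAdd n 0) ^ 2 * rename (Fin.castAdd 3) f - 1) ^ 2 -
    (X (Fin.natAdd n 1) ^ 2 * rename (Fin.castAdd 3) g - 1) ^ 2) *
    (X (Fin.natAdd n 0) * rename (Fin.castAdd 3) f *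
      (X (Fin.natAdd n 0) ^ 2 * rename (Fin.castAdd 3) f - 1)) ^ 2 *
    (X (Fin.natAdd n 1) * rename (Fin.castAdd 3) g *
      (X (Fin.natAdd n 1) ^ 2 * rename (Fin.castAdd 3) g - 1)) ^ 2 - C 64 * X (Fin.natAdd n 2) ^ 2

theorem aeval_mg {n : ℕ} (f g : MvPolynomial (Fin n) ℤ) (y : Fin (n + 3) → ℝ) :
    aeval y (mg f g) = gad (aeval (base 3 y) f) (aeval (base 3 y) g) (y (Fin.natAdd n 0)) (y (Fin.natAdd n 1))
      (y (Fin.natAdd n 2)) := by
  have h : (y ∘ Fin.castAdd 3 : Fin n → ℝ) = base 3 y := rfl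
  simp [mg, gad, aeval_rename, h]

theorem meas_aeval {n : ℕ} (f : MvPolynomial (Fin n) ℤ) : Measurable (fun x : Fin n → ℝ => (aeval x f : ℝ)) := by
  have h : Continuous (fun x : Fin n → ℝ => (aeval x f : ℝ)) := by
    simp only [MvPolynomial.aeval_eq_eval₂Hom, coe_eval₂Hom]
    simp only [MvPolynomial.eval₂_eq]
    fun_prop
  exact h.measurable

theorem exists_single (n : ℕ) (L : List (MvPolynomial (Fin n) ℤ)) :
    ∃ k, k = 3 * L.length ∧ ∃ F : MvPolynomial (Fin (n + k)) ℤ,
      (∀ y, 0 < (aeval y F : ℝ) → ∀ A ∈ L, 0 < (aeval (base k y) A : ℝ)) ∧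
      ∀ S : Set (Fin n → ℝ), MeasurableSet S →
        volume {y | base k y ∈ S ∧ 0 < (aeval y F : ℝ)} =
          volume {x | x ∈ S ∧ ∀ A ∈ L, 0 < (aeval x A : ℝ)} := by
  induction L with
  | nil =>
    refine ⟨0, rfl, 1, by simp, fun S _ => ?_⟩
    simp only [map_one, zero_lt_one, and_true, List.not_mem_nil, false_imp_iff,
      implies_true]
    rfl
  | cons A L ih =>
    obtain ⟨k, hk, F, h1, h2⟩ := ih
    have hb : ∀ y : Fin (n + k + 3) → ℝ, (base (k + 3) y : Fin n → ℝ) = base k (base 3 y) := fun y => rfl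
    have hA : ∀ y : Fin (n + k) → ℝ, (aeval y (rename (Fin.castAdd k) A) : ℝ) = aeval (base k y) A := by
      intro y
      rw [aeval_rename]
      rfl
    refine ⟨k + 3, by rw [hk, List.length_cons]; ring,
      (mg F (rename (Fin.castAdd k) A) : MvPolynomial (Fin (n + k + 3)) ℤ), ?_, ?_⟩
    · intro y hy B hB
      have hy' : 0 < (aeval y (mg F (rename (Fin.castAdd k) A)) : ℝ) := hy
      rw [aeval_mg] at hy'
      obtain ⟨h3, h4⟩ := gad_pos _ _ _ _ _ hy'
      have h5 : (base (k + 3) y : Fin n → ℝ) = base k (base 3 y) := hb y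
      rw [h5]
      rcases List.mem_cons.1 hB with rfl | hB
      · rw [hA] at h4
        exact h4
      · exact h1 _ h3 B hB
    · intro S hS
      have hm := merge (n := n + k) (fun y => (aeval y F : ℝ)) (fun y => (aeval y (rename (Fin.castAdd k) A) : ℝ))
        (meas_aeval _) (meas_aeval _) {y | base k y ∈ S} (meas_base hS)
      have e1 : {y : Fin (n + k + 3) → ℝ | base (k + 3) y ∈ S ∧
          0 < (aeval y (mg F (rename (Fin.castAdd k) A)) : ℝ)} =
          {y : Fin (n + k + 3) → ℝ | (fun i : Fin (n + k) => y (i.castAdd 3)) ∈ {y | base k y ∈ S} ∧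
            0 < gad (aeval (fun i : Fin (n + k) => y (i.castAdd 3)) F)
              (aeval (fun i : Fin (n + k) => y (i.castAdd 3)) (rename (Fin.castAdd k) A))
              (y (Fin.natAdd (n + k) 0)) (y (Fin.natAdd (n + k) 1)) (y (Fin.natAdd (n + k) 2))} := by
        ext y
        simp only [mem_ofPred_eq]
        rw [aeval_mg]
        rfl
      have e2 : volume {y : Fin (n + k + 3) → ℝ | base (k + 3) y ∈ S ∧
          0 < (aeval y (mg F (rename (Fin.castAdd k) A)) : ℝ)} =
          volume {x | x ∈ S ∧ ∀ B ∈ A :: L, 0 < (aeval x B : ℝ)} := by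
        rw [e1, hm]
        have hS' : MeasurableSet {x | x ∈ S ∧ 0 < (aeval x A : ℝ)} :=
          hS.inter (measurableSet_lt measurable_const (meas_aeval A))
        have e3 := h2 _ hS'
        have e4 : {x : Fin (n + k) → ℝ | x ∈ {y | base k y ∈ S} ∧ 0 < (aeval x F : ℝ) ∧
            0 < (aeval x (rename (Fin.castAdd k) A) : ℝ)} =
            {y | base k y ∈ {x | x ∈ S ∧ 0 < (aeval x A : ℝ)} ∧ 0 < (aeval y F : ℝ)} := by
          ext y
          simp only [mem_ofPred_eq, hA]
          tauto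
        have e5 : {x | x ∈ S ∧ ∀ B ∈ A :: L, 0 < (aeval x B : ℝ)} =
            {x | x ∈ {x | x ∈ S ∧ 0 < (aeval x A : ℝ)} ∧ ∀ A ∈ L, 0 < (aeval x A : ℝ)} := by
          ext x
          simp only [mem_ofPred_eq, List.forall_mem_cons]
          tauto
        rw [e4, e3, e5]
      exact e2

/-- the push-forward of the restricted measure -/
theorem exists_map (n : ℕ) (L : List (MvPolynomial (Fin n) ℤ)) :
    ∃ k, k = 3 * L.length ∧ ∃ F : MvPolynomial (Fin (n + k)) ℤ,
      (∀ y, 0 < (aeval y F : ℝ) → ∀ A ∈ L, 0 < (aeval (base k y) A : ℝ)) ∧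
      (volume.restrict {y | 0 < (aeval y F : ℝ)}).map (base k) =
        volume.restrict {x | ∀ A ∈ L, 0 < (aeval x A : ℝ)} := by
  obtain ⟨k, hk, F, h1, h2⟩ := exists_single n L
  refine ⟨k, hk, F, h1, ?_⟩
  ext S hS
  rw [Measure.map_apply meas_base hS, Measure.restrict_apply (meas_base hS), Measure.restrict_apply hS]
  exact h2 S hS

end Pool.Agent.H839.PV
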