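import Pool.Agent.H839.PV.CodeR

/-!
# The sum of two volumes as the volume of one region `f > 0`
-/

set_option autoImplicit false

namespace Pool.Agent.H839.PV

open TH960.PE MeasureTheory

/-- the polynomial `(x_i - a) (b - x_i)` -/
def bx (a b i : ℕ) : Poly := pmul (psub (var i) (cst a)) (psub (cst b) (var i))

theorem pev_bx (a b i : ℕ) (X : ℕ → ℝ) : pev X (bx a b i) = (X i - a) * (b - X i) := by
  simp only [bx, pev_pmul, pev_psub, pev_var, pev_cst]

theorem isPoly_bx (a b : ℕ) {i n : ℕ} (h : i < n) : IsPoly n (bx a b i) :=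
  isPoly_pmul (isPoly_psub (isPoly_var h) (isPoly_cst _ _)) (isPoly_psub (isPoly_cst _ _) (isPoly_var h))

theorem prim_bx (a b : ℕ) : Primrec (bx a b) := by
  unfold bx
  exact prim_pmul.comp (prim_psub.comp prim_var (Primrec.const _)) (prim_psub.comp (Primrec.const _) prim_var)

/-- one more variable, in an interval of length one -/
theorem vol_bx {n : ℕ} {q : (ℕ → ℝ) → Prop} (hq : Loc n q) (a : ℕ) :
    vol (n + 1) (fun X => q X ∧ 0 < pev X (bx a (a + 1) n)) = vol n q := by
  have a1 : Measurable (fun p : (Fin n → ℝ) × (Fin 1 → ℝ) => p.2 0) := by fun_prop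
  have h1 := subgraph (fun _ : Fin n → ℝ => (0 : ℝ)) {x | q (ext x)} hq.meas (fun _ => Set.Ioo (a : ℝ) (a + 1))
    ((measurableSet_lt measurable_const a1).inter (measurableSet_lt a1 measurable_const))
    (fun _ => 1) (fun c => by rw [Real.volume_Ioo]; congr 1; ring)
  simp only [ENNReal.ofReal_one, setLIntegral_const, one_mul] at h1
  unfold vol
  rw [← h1]
  congr 1
  ext y
  have e1 : ext y n = y (Fin.natAdd n 0) := by
    rw [ext_of_lt y (by omega : n < n + 1)]
    rfl
  simp only [Set.mem_ofPred_eq]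
  rw [hq.congr _ _ (ext_base y), pev_bx, e1]
  refine and_congr_right fun _ => ?_
  simp only [Set.mem_Ioo]
  push_cast
  constructor
  · intro h
    rcases pos_and_pos_or_neg_and_neg_of_mul_pos h with ⟨h2, h3⟩ | ⟨h2, h3⟩
    · exact ⟨by linarith, by linarith⟩
    · exfalso
      linarith
  · rintro ⟨h2, h3⟩
    exact mul_pos (by linarith) (by linarith)

/-- the inequalities of the unit cube in the variables `x_n, …, x_{n + k - 1}` -/
def box (n k : ℕ) : List Poly := (List.range k).map (fun i => bx 0 1 (n + i))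

theorem prim_box : Primrec₂ box := by
  unfold box
  refine Primrec.list_map (Primrec.list_range.comp Primrec.snd) ?_
  exact (prim_bx 0 1).comp (Primrec.nat_add.comp (Primrec.fst.comp Primrec.fst) Primrec.snd)

theorem length_box (n k : ℕ) : (box n k).length = k := by simp [box]

theorem isPoly_box (n k : ℕ) : ∀ A ∈ box n k, IsPoly (n + k) A := by
  intro A hA
  simp only [box, List.mem_map, List.mem_range] at hA
  obtain ⟨i, hi, rfl⟩ := hA
  exact isPoly_bx _ _ (by omega)

theorem vol_box {n : ℕ} {L : List Poly} (hL : ∀ A ∈ L, IsPoly n A) (k : ℕ) :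
    vol (n + k) (fun X => ∀ A ∈ L ++ box n k, 0 < pev X A) = vol n (fun X => ∀ A ∈ L, 0 < pev X A) := by
  induction k with
  | zero => exact vol_congr fun X => by simp [box]
  | succ k ih =>
    rw [← ih]
    have h1 : ∀ A ∈ L ++ box n k, IsPoly (n + k) A := by
      intro A hA
      rcases List.mem_append.1 hA with h | h
      · exact isPoly_le (by omega) (hL A h)
      · exact isPoly_box n k A h
    rw [← vol_bx (Loc.all h1) 0]
    refine vol_congr fun X => ?_
    simp only [box, List.range_succ, List.map_append, List.map_cons, List.map_nil, List.forall_mem_append,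
      List.forall_mem_cons, List.not_mem_nil, false_imp_iff, implies_true, and_true, and_assoc, zero_add]

/-- the system `L` in `n` variables, with `k` more variables in the unit interval and one in `(a, a + 1)` -/
def sel (n k a : ℕ) (L : List Poly) : List Poly := L ++ box n k ++ [bx a (a + 1) (n + k)]

theorem isPoly_sel {n : ℕ} {L : List Poly} (hL : ∀ A ∈ L, IsPoly n A) (k a : ℕ) :
    ∀ A ∈ sel n k a L, IsPoly (n + k + 1) A := by
  intro A hA
  simp only [sel, List.mem_append, List.mem_singleton] at hA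
  rcases hA with (h | h) | rfl
  · exact isPoly_le (by omega) (hL A h)
  · exact isPoly_le (by omega) (isPoly_box n k A h)
  · exact isPoly_bx _ _ (by omega)

theorem vol_sel {n : ℕ} {L : List Poly} (hL : ∀ A ∈ L, IsPoly n A) (k a : ℕ) :
    vol (n + k + 1) (fun X => ∀ A ∈ sel n k a L, 0 < pev X A) = vol n (fun X => ∀ A ∈ L, 0 < pev X A) := by
  have h1 : ∀ A ∈ L ++ box n k, IsPoly (n + k) A := by
    intro A hA
    rcases List.mem_append.1 hA with h | h
    · exact isPoly_le (by omega) (hL A h)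
    · exact isPoly_box n k A h
  rw [← vol_box hL k, ← vol_bx (Loc.all h1) a]
  refine vol_congr fun X => ?_
  simp only [sel, List.forall_mem_append, List.forall_mem_cons, List.not_mem_nil, false_imp_iff, implies_true, and_true]

/-- padding by trivial inequalities -/
def padL (k : ℕ) (L : List Poly) : List Poly := L ++ List.replicate k (cst 1)

theorem padL_iff (k : ℕ) (L : List Poly) (X : ℕ → ℝ) : (∀ A ∈ padL k L, 0 < pev X A) ↔ ∀ A ∈ L, 0 < pev X A := by
  simp only [padL, List.forall_mem_append, and_iff_left_iff_imp]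
  intro _ A hA
  rw [List.eq_of_mem_replicate hA, pev_cst]
  norm_num

theorem isPoly_padL {n : ℕ} {L : List Poly} (hL : ∀ A ∈ L, IsPoly n A) (k : ℕ) : ∀ A ∈ padL k L, IsPoly n A := by
  intro A hA
  simp only [padL, List.mem_append] at hA
  rcases hA with h | h
  · exact hL A h
  · rw [List.eq_of_mem_replicate h]
    exact isPoly_cst _ _

/-- the merged polynomial of one part of the union -/
def part (n k a l : ℕ) (L : List Poly) : ℕ × Poly := mergeL (n + k + 1) (padL l (sel n k a L))

/-- one polynomial inequality whose region has the sum of the volumes of the regions of two systems -/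
def un (s t : ℕ × List Poly) : ℕ × Poly :=
  ((part s.1 t.1 0 (sel t.1 s.1 1 t.2).length s.2).1,
    pneg (pmul (part s.1 t.1 0 (sel t.1 s.1 1 t.2).length s.2).2 (part t.1 s.1 1 (sel s.1 t.1 0 s.2).length t.2).2))

theorem part_fst (n k a l : ℕ) (L : List Poly) : (part n k a l L).1 = n + k + 1 + 3 * ((sel n k a L).length + l) := by
  rw [part, mergeL_fst, padL, List.length_append, List.length_replicate]

theorem part_isPoly {n : ℕ} {L : List Poly} (hL : ∀ A ∈ L, IsPoly n A) (k a l : ℕ) :
    IsPoly (part n k a l L).1 (part n k a l L).2 :=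
  mergeL_isPoly (isPoly_padL (isPoly_sel hL k a) l)

theorem part_vol {n : ℕ} {L : List Poly} (hL : ∀ A ∈ L, IsPoly n A) (k a l : ℕ) :
    vol (part n k a l L).1 (fun X => 0 < pev X (part n k a l L).2) = vol n (fun X => ∀ A ∈ L, 0 < pev X A) := by
  rw [part, mergeL_vol (isPoly_padL (isPoly_sel hL k a) l), ← vol_sel hL k a]
  exact vol_congr fun X => padL_iff _ _ _

theorem part_pos {n k a l : ℕ} {L : List Poly} {X : ℕ → ℝ} (h : 0 < pev X (part n k a l L).2) :
    0 < (X (n + k) - a) * (a + 1 - X (n + k)) := by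
  have h1 := mergeL_pos h (bx a (a + 1) (n + k)) (by simp [padL, sel])
  rw [pev_bx] at h1
  push_cast at h1
  exact h1

theorem un_isPoly {s t : ℕ × List Poly} (hs : ∀ A ∈ s.2, IsPoly s.1 A) (ht : ∀ A ∈ t.2, IsPoly t.1 A) :
    IsPoly (un s t).1 (un s t).2 := by
  have h1 := part_isPoly hs t.1 0 (sel t.1 s.1 1 t.2).length
  have h2 := part_isPoly ht s.1 1 (sel s.1 t.1 0 s.2).length
  have h3 : (part t.1 s.1 1 (sel s.1 t.1 0 s.2).length t.2).1 =
      (part s.1 t.1 0 (sel t.1 s.1 1 t.2).length s.2).1 := by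
    rw [part_fst, part_fst]
    ring
  rw [h3] at h2
  exact isPoly_pneg (isPoly_pmul h1 h2)

theorem un_vol {s t : ℕ × List Poly} (hs : ∀ A ∈ s.2, IsPoly s.1 A) (ht : ∀ A ∈ t.2, IsPoly t.1 A) :
    vol (un s t).1 (fun X => 0 < pev X (un s t).2) =
      vol s.1 (fun X => ∀ A ∈ s.2, 0 < pev X A) + vol t.1 (fun X => ∀ A ∈ t.2, 0 < pev X A) := by
  have h1 := part_isPoly hs t.1 0 (sel t.1 s.1 1 t.2).length
  have h2 := part_isPoly ht s.1 1 (sel s.1 t.1 0 s.2).length
  have v1 := part_vol hs t.1 0 (sel t.1 s.1 1 t.2).length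
  have v2 := part_vol ht s.1 1 (sel s.1 t.1 0 s.2).length
  have h3 : (part t.1 s.1 1 (sel s.1 t.1 0 s.2).length t.2).1 =
      (part s.1 t.1 0 (sel t.1 s.1 1 t.2).length s.2).1 := by
    rw [part_fst, part_fst]
    ring
  have n1 : ∃ X : ℕ → ℝ, pev X (part s.1 t.1 0 (sel t.1 s.1 1 t.2).length s.2).2 ≠ 0 := mergeL_ne _ _
  have n2 : ∃ X : ℕ → ℝ, pev X (part t.1 s.1 1 (sel s.1 t.1 0 s.2).length t.2).2 ≠ 0 := mergeL_ne _ _
  have p1 : ∀ X : ℕ → ℝ, 0 < pev X (part s.1 t.1 0 (sel t.1 s.1 1 t.2).length s.2).2 →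
      0 < (X (s.1 + t.1) - (0 : ℕ)) * ((0 : ℕ) + 1 - X (s.1 + t.1)) := fun X h => part_pos h
  have p2 : ∀ X : ℕ → ℝ, 0 < pev X (part t.1 s.1 1 (sel s.1 t.1 0 s.2).length t.2).2 →
      0 < (X (s.1 + t.1) - (1 : ℕ)) * ((1 : ℕ) + 1 - X (s.1 + t.1)) := fun X h => by
    have := part_pos h
    rwa [Nat.add_comm t.1 s.1] at this
  rw [h3] at h2 v2
  rw [← v1, ← v2]
  simp only [un]
  generalize (part s.1 t.1 0 (sel t.1 s.1 1 t.2).length s.2).1 = N at h1 h2 v1 v2 ⊢
  generalize (part s.1 t.1 0 (sel t.1 s.1 1 t.2).length s.2).2 = F at h1 n1 p1 v1 ⊢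
  generalize (part t.1 s.1 1 (sel s.1 t.1 0 s.2).length t.2).2 = G at h2 n2 p2 v2 ⊢
  have hdis : ∀ X : ℕ → ℝ, 0 < pev X F → ¬ 0 < pev X G := by
    intro X hF hG
    have a1 := p1 X hF
    have a2 := p2 X hG
    push_cast at a1 a2
    have b1 : X (s.1 + t.1) < 1 := by
      by_contra hcon
      push Not at hcon
      nlinarith
    have b2 : 1 < X (s.1 + t.1) := by
      by_contra hcon
      push Not at hcon
      nlinarith
    linarith
  unfold vol
  have hu : ({x : Fin N → ℝ | 0 < pev (ext x) (pneg (pmul F G))} : Set (Fin N → ℝ)) =ᵐ[volume]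
      ({x : Fin N → ℝ | 0 < pev (ext x) F} ∪ {x : Fin N → ℝ | 0 < pev (ext x) G} : Set (Fin N → ℝ)) := by
    filter_upwards [ae_ne h1 n1, ae_ne h2 n2] with x hx1 hx2
    refine propext ?_
    show 0 < pev (ext x) (pneg (pmul F G)) ↔ (0 < pev (ext x) F ∨ 0 < pev (ext x) G)
    rw [pev_pneg, pev_pmul]
    constructor
    · intro h
      by_contra hcon
      push Not at hcon
      nlinarith [mul_nonneg_of_nonpos_of_nonpos hcon.1 hcon.2]
    · rintro (h | h)
      · have h4 : pev (ext x) G < 0 := lt_of_le_of_ne (not_lt.1 (hdis _ h)) hx2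
        nlinarith [mul_pos_of_neg_of_neg h4 (neg_neg_of_pos h)]
      · have h4 : pev (ext x) F < 0 := lt_of_le_of_ne (not_lt.1 (fun h' => hdis _ h' h)) hx1
        nlinarith [mul_pos_of_neg_of_neg h4 (neg_neg_of_pos h)]
  rw [measure_congr hu, measure_union]
  · rw [Set.disjoint_left]
    intro x hx hx'
    exact hdis _ hx hx'
  · exact measurableSet_lt measurable_const (meas_pev G)

/-! ### Computability -/

theorem prim_padL : Primrec₂ padL := by
  unfold padL
  exact Primrec.list_append.comp Primrec.snd (prim_replicate.comp Primrec.fst (Primrec.const _))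

theorem prim_sel (a : ℕ) : Primrec (fun p : (ℕ × List Poly) × ℕ => sel p.1.1 p.2 a p.1.2) := by
  unfold sel
  have n0 : Primrec (fun p : (ℕ × List Poly) × ℕ => p.1.1) := Primrec.fst.comp Primrec.fst
  have L0 : Primrec (fun p : (ℕ × List Poly) × ℕ => p.1.2) := Primrec.snd.comp Primrec.fst
  have k0 : Primrec (fun p : (ℕ × List Poly) × ℕ => p.2) := Primrec.snd
  exact Primrec.list_append.comp (Primrec.list_append.comp L0 (prim_box.comp n0 k0))
    (Primrec.list_cons.comp ((prim_bx a (a + 1)).comp (Primrec.nat_add.comp n0 k0)) (Primrec.const []))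

theorem prim_part (a : ℕ) : Primrec (fun p : ((ℕ × List Poly) × ℕ) × ℕ => part p.1.1.1 p.1.2 a p.2 p.1.1.2) := by
  unfold part
  have n0 : Primrec (fun p : ((ℕ × List Poly) × ℕ) × ℕ => p.1.1.1) := Primrec.fst.comp (Primrec.fst.comp Primrec.fst)
  have k0 : Primrec (fun p : ((ℕ × List Poly) × ℕ) × ℕ => p.1.2) := Primrec.snd.comp Primrec.fst
  have s0 := (prim_sel a).comp (Primrec.fst (α := (ℕ × List Poly) × ℕ) (β := ℕ))
  exact prim_mergeL.comp (Primrec.succ.comp (Primrec.nat_add.comp n0 k0)) (prim_padL.comp Primrec.snd s0)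

theorem prim_un : Primrec₂ un := by
  have s0 : Primrec (fun p : (ℕ × List Poly) × (ℕ × List Poly) => p.1) := Primrec.fst
  have t0 : Primrec (fun p : (ℕ × List Poly) × (ℕ × List Poly) => p.2) := Primrec.snd
  have s1 : Primrec (fun p : (ℕ × List Poly) × (ℕ × List Poly) => p.1.1) := Primrec.fst.comp Primrec.fst
  have t1 : Primrec (fun p : (ℕ × List Poly) × (ℕ × List Poly) => p.2.1) := Primrec.fst.comp Primrec.snd
  have l1 : Primrec (fun p : (ℕ × List Poly) × (ℕ × List Poly) => (sel p.2.1 p.1.1 1 p.2.2).length) :=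
    Primrec.list_length.comp ((prim_sel 1).comp (Primrec.pair t0 s1))
  have l0 : Primrec (fun p : (ℕ × List Poly) × (ℕ × List Poly) => (sel p.1.1 p.2.1 0 p.1.2).length) :=
    Primrec.list_length.comp ((prim_sel 0).comp (Primrec.pair s0 t1))
  have q0 := (prim_part 0).comp (Primrec.pair (Primrec.pair s0 t1) l1)
  have q1 := (prim_part 1).comp (Primrec.pair (Primrec.pair t0 s1) l0)
  exact Primrec.pair (Primrec.fst.comp q0) (prim_pneg.comp (prim_pmul.comp (Primrec.snd.comp q0) (Primrec.snd.comp q1)))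

end Pool.Agent.H839.PV
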